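import Mathlib

/-!
Formulas, Kripke semantics, Craig interpolants, the Kripke criterion and strong Kripke completeness
for propositional unimodal logics.
-/

namespace Pool.Agent.H.MP_e3277b_lc

universe u v

/-- Formulas of propositional unimodal logic over the variables `p_0, p_1, ...`.
Primitive connectives: falsum, implication, box. -/
inductive Form : Type where
  | var (n : ℕ) : Form
  | bot : Form
  | imp (φ ψ : Form) : Form
  | box (φ : Form) : Form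

namespace Form

/-- Negation. -/
def neg (φ : Form) : Form := imp φ bot

/-- Verum. -/
def top : Form := neg bot

/-- Conjunction. -/
def and (φ ψ : Form) : Form := neg (imp φ (neg ψ))

/-- Disjunction. -/
def or (φ ψ : Form) : Form := imp (neg φ) ψ

/-- Diamond. -/
def dia (φ : Form) : Form := neg (box (neg φ))

/-- The set of variables of a formula. -/
def sig : Form → Set ℕ
  | var n => {n}
  | bot => ∅
  | imp φ ψ => φ.sig ∪ ψ.sig
  | box φ => φ.sig

/-- Uniform substitution. -/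
def subst (s : ℕ → Form) : Form → Form
  | var n => s n
  | bot => bot
  | imp φ ψ => imp (φ.subst s) (ψ.subst s)
  | box φ => box (φ.subst s)

/-- Conjunction of a finite list of formulas. -/
def conj : List Form → Form
  | [] => top
  | φ :: l => and φ (conj l)

end Form

open Form

/-- `φ` is a (substitution instance of a) propositional tautology: it is true under every
assignment of truth values to formulas that respects falsum and implication. -/
def Taut (φ : Form) : Prop :=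
  ∀ v : Form → Prop, ¬ v bot → (∀ α β, v (imp α β) ↔ (v α → v β)) → v φ

/-- Normal modal logics, as sets of formulas. -/
structure IsNormal (L : Set Form) : Prop where
  taut : ∀ φ, Taut φ → φ ∈ L
  axK : ∀ φ ψ, imp (box (imp φ ψ)) (imp (box φ) (box ψ)) ∈ L
  mp : ∀ φ ψ, imp φ ψ ∈ L → φ ∈ L → ψ ∈ L
  nec : ∀ φ, φ ∈ L → box φ ∈ L
  subst : ∀ φ s, φ ∈ L → φ.subst s ∈ L

/-- Truth of a formula at a point of the Kripke model `(W, R, V)`. -/
def Sat {W : Type u} (R : W → W → Prop) (V : ℕ → W → Prop) : W → Form → Prop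
  | x, var n => V n x
  | _, bot => False
  | x, imp φ ψ => Sat R V x φ → Sat R V x ψ
  | x, box φ => ∀ y, R x y → Sat R V y φ

/-- The Kripke frame `(W, R)` is a frame for `L`: it validates every formula of `L`. -/
def FrameFor (L : Set Form) {W : Type u} (R : W → W → Prop) : Prop :=
  ∀ φ ∈ L, ∀ (V : ℕ → W → Prop) (x : W), Sat R V x φ

/-- `Z` is a `σ`-bisimulation between the models `(W₁, R₁, V₁)` and `(W₂, R₂, V₂)`. -/
structure IsBisim (σ : Set ℕ) {W₁ : Type u} {W₂ : Type v}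
    (R₁ : W₁ → W₁ → Prop) (V₁ : ℕ → W₁ → Prop) (R₂ : W₂ → W₂ → Prop) (V₂ : ℕ → W₂ → Prop)
    (Z : W₁ → W₂ → Prop) : Prop where
  atoms : ∀ x₁ x₂, Z x₁ x₂ → ∀ n ∈ σ, (V₁ n x₁ ↔ V₂ n x₂)
  forth : ∀ x₁ x₂ y₁, Z x₁ x₂ → R₁ x₁ y₁ → ∃ y₂, R₂ x₂ y₂ ∧ Z y₁ y₂
  back : ∀ x₁ x₂ y₂, Z x₁ x₂ → R₂ x₂ y₂ → ∃ y₁, R₁ x₁ y₁ ∧ Z y₁ y₂

/-- `ι` is a Craig interpolant of `φ₁, φ₂` in `L`. -/
def IsInterpolant (L : Set Form) (φ₁ φ₂ ι : Form) : Prop :=
  ι.sig ⊆ φ₁.sig ∩ φ₂.sig ∧ imp φ₁ ι ∈ L ∧ imp ι φ₂ ∈ L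

/-- `L` has the Kripke criterion: for all `φ₁, φ₂` with `σ = sig φ₁ ∩ sig φ₂`, there is no
interpolant of `φ₁, φ₂` in `L` iff there are `σ`-bisimilar pointed models, based on Kripke frames
for `L`, the first satisfying `φ₁` and the second satisfying `¬ φ₂`. -/
def KripkeCriterion (L : Set Form) : Prop :=
  ∀ φ₁ φ₂ : Form, (¬ ∃ ι, IsInterpolant L φ₁ φ₂ ι) ↔
    ∃ (W₁ : Type u) (R₁ : W₁ → W₁ → Prop) (V₁ : ℕ → W₁ → Prop) (x₁ : W₁)
      (W₂ : Type u) (R₂ : W₂ → W₂ → Prop) (V₂ : ℕ → W₂ → Prop) (x₂ : W₂),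
      FrameFor L R₁ ∧ FrameFor L R₂ ∧
      (∃ Z : W₁ → W₂ → Prop, IsBisim (φ₁.sig ∩ φ₂.sig) R₁ V₁ R₂ V₂ Z ∧ Z x₁ x₂) ∧
      Sat R₁ V₁ x₁ φ₁ ∧ Sat R₂ V₂ x₂ (neg φ₂)

/-- `Γ` is `L`-consistent: no negation of a finite conjunction of members of `Γ` is in `L`. -/
def Consistent (L : Set Form) (Γ : Set Form) : Prop :=
  ∀ l : List Form, (∀ ψ ∈ l, ψ ∈ Γ) → neg (conj l) ∉ L

/-- `L` is strongly Kripke complete: every `L`-consistent set of formulas is satisfied at some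
point of some model based on a Kripke frame for `L`. -/
def StronglyKripkeComplete (L : Set Form) : Prop :=
  ∀ Γ : Set Form, Consistent L Γ →
    ∃ (W : Type u) (R : W → W → Prop) (V : ℕ → W → Prop) (x : W),
      FrameFor L R ∧ ∀ ψ ∈ Γ, Sat R V x ψ

/-! ### Basic facts -/

section Basic

variable {W : Type u} {R : W → W → Prop} {V : ℕ → W → Prop} {x : W}

@[simp] theorem sat_var {n : ℕ} : Sat R V x (var n) ↔ V n x := Iff.rfl
@[simp] theorem sat_bot : Sat R V x bot ↔ False := Iff.rfl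
@[simp] theorem sat_imp {φ ψ : Form} :
    Sat R V x (imp φ ψ) ↔ (Sat R V x φ → Sat R V x ψ) := Iff.rfl
@[simp] theorem sat_box {φ : Form} :
    Sat R V x (box φ) ↔ ∀ y, R x y → Sat R V y φ := Iff.rfl
@[simp] theorem sat_neg {φ : Form} : Sat R V x (neg φ) ↔ ¬ Sat R V x φ := Iff.rfl
@[simp] theorem sat_top : Sat R V x top ↔ True := by simp [top]
@[simp] theorem sat_and {φ ψ : Form} :
    Sat R V x (Form.and φ ψ) ↔ (Sat R V x φ ∧ Sat R V x ψ) := by
  simp [Form.and]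
@[simp] theorem sat_or {φ ψ : Form} :
    Sat R V x (Form.or φ ψ) ↔ (Sat R V x φ ∨ Sat R V x ψ) := by
  simp only [Form.or, sat_imp, sat_neg]; tauto
@[simp] theorem sat_dia {φ : Form} :
    Sat R V x (dia φ) ↔ ∃ y, R x y ∧ Sat R V y φ := by
  simp [dia]
theorem sat_conj {l : List Form} : Sat R V x (conj l) ↔ ∀ ψ ∈ l, Sat R V x ψ := by
  induction l with
  | nil => simp [conj]
  | cons a l ih => simp [conj, ih]

theorem sat_subst {s : ℕ → Form} {φ : Form} : ∀ {x : W},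
    Sat R V x (φ.subst s) ↔ Sat R (fun n y => Sat R V y (s n)) x φ := by
  induction φ with
  | var n => intro x; simp [subst]
  | bot => intro x; simp [subst]
  | imp φ ψ h1 h2 => intro x; simp [subst, h1, h2]
  | box φ h => intro x; simp [subst, h]

end Basic

/-- Bisimilar points agree on formulas in the shared signature. -/
theorem bisim_sat {σ : Set ℕ} {W₁ : Type u} {W₂ : Type v}
    {R₁ : W₁ → W₁ → Prop} {V₁ : ℕ → W₁ → Prop} {R₂ : W₂ → W₂ → Prop} {V₂ : ℕ → W₂ → Prop}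
    {Z : W₁ → W₂ → Prop} (hZ : IsBisim σ R₁ V₁ R₂ V₂ Z) (φ : Form) (hφ : φ.sig ⊆ σ) :
    ∀ x₁ x₂, Z x₁ x₂ → (Sat R₁ V₁ x₁ φ ↔ Sat R₂ V₂ x₂ φ) := by
  induction φ with
  | var n =>
    intro x₁ x₂ h
    exact hZ.atoms x₁ x₂ h n (hφ (by simp [sig]))
  | bot => intro x₁ x₂ _; simp
  | imp φ ψ h1 h2 =>
    intro x₁ x₂ h
    simp only [sig, Set.union_subset_iff] at hφ
    simp only [sat_imp, h1 hφ.1 x₁ x₂ h, h2 hφ.2 x₁ x₂ h]
  | box φ ih =>
    intro x₁ x₂ h
    simp only [sat_box]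
    constructor
    · intro hb y₂ hy
      obtain ⟨y₁, hy₁, hz⟩ := hZ.back x₁ x₂ y₂ h hy
      exact (ih hφ y₁ y₂ hz).1 (hb y₁ hy₁)
    · intro hb y₁ hy
      obtain ⟨y₂, hy₂, hz⟩ := hZ.forth x₁ x₂ y₁ h hy
      exact (ih hφ y₁ y₂ hz).2 (hb y₂ hy₂)

end Pool.Agent.H.MP_e3277b_lc
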