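import Pool.Agent.H.MP_e3277b_lc.SUltra

/-!
Extension of a model by new nodes.
-/

namespace Pool.Agent.H.MP_e3277b_lc

open Form Filter

/-- The points of the extended frame. -/
inductive Ext (W J : Type) : Type where
  | old (a : W) : Ext W J
  | nx (j : J) : Ext W J
  | nz (j : J) : Ext W J
  | ne (j : J) : Ext W J

/-- The relation of the extended frame. -/
inductive EAcc {W J : Type} (R : W → W → Prop) (root : J → W) (C D : J → Set W) :
    Ext W J → Ext W J → Prop where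
  | oo (a b : W) : R a b → EAcc R root C D (Ext.old a) (Ext.old b)
  | ox (j : J) : EAcc R root C D (Ext.old (root j)) (Ext.nx j)
  | xo (j : J) (b : W) : b ∈ C j → EAcc R root C D (Ext.nx j) (Ext.old b)
  | xz (j : J) : EAcc R root C D (Ext.nx j) (Ext.nz j)
  | zo (j : J) (b : W) : b ∈ D j → EAcc R root C D (Ext.nz j) (Ext.old b)
  | ze (j : J) : EAcc R root C D (Ext.nz j) (Ext.ne j)

section Truth

variable {W J : Type} {R : W → W → Prop} {V : ℕ → W → Prop} {root : J → W} {C D : J → Set W}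
  (U : Ultrafilter (Finset Form)) (xx zz ee : Finset Form → J → W)

/-- The valuation of the extended model. -/
def EV (V : ℕ → W → Prop) (n : ℕ) : Ext W J → Prop
  | Ext.old a => V n a
  | Ext.nx j => ∀ᶠ Φ in (U : Filter (Finset Form)), V n (xx Φ j)
  | Ext.nz j => ∀ᶠ Φ in (U : Filter (Finset Form)), V n (zz Φ j)
  | Ext.ne j => ∀ᶠ Φ in (U : Filter (Finset Form)), V n (ee Φ j)

variable {U xx zz ee}

theorem sat_ext (hU : ∀ χ : Form, ∀ᶠ Φ in (U : Filter (Finset Form)), χ ∈ Φ)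
    (h0 : ∀ Φ j, R (root j) (xx Φ j))
    (h1 : ∀ Φ j, ∃ S : Set W, (∀ y, R (xx Φ j) y ↔ y = zz Φ j ∨ y ∈ S) ∧
      ∀ χ ∈ Φ, ((∀ y ∈ S, Sat R V y χ) ↔ (∀ y ∈ C j, Sat R V y χ)))
    (h2 : ∀ Φ j, ∃ S : Set W, (∀ y, R (zz Φ j) y ↔ y = ee Φ j ∨ y ∈ S) ∧
      ∀ χ ∈ Φ, ((∀ y ∈ S, Sat R V y χ) ↔ (∀ y ∈ D j, Sat R V y χ)))
    (h3 : ∀ Φ j, IsE R (ee Φ j)) (φ : Form) :
    (∀ a, Sat (EAcc R root C D) (EV U xx zz ee V) (Ext.old a) φ ↔ Sat R V a φ) ∧
    (∀ j, Sat (EAcc R root C D) (EV U xx zz ee V) (Ext.nx j) φ ↔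
      ∀ᶠ Φ in (U : Filter (Finset Form)), Sat R V (xx Φ j) φ) ∧
    (∀ j, Sat (EAcc R root C D) (EV U xx zz ee V) (Ext.nz j) φ ↔
      ∀ᶠ Φ in (U : Filter (Finset Form)), Sat R V (zz Φ j) φ) ∧
    (∀ j, Sat (EAcc R root C D) (EV U xx zz ee V) (Ext.ne j) φ ↔
      ∀ᶠ Φ in (U : Filter (Finset Form)), Sat R V (ee Φ j) φ) := by
  induction φ with
  | var n => exact ⟨fun _ => Iff.rfl, fun _ => Iff.rfl, fun _ => Iff.rfl, fun _ => Iff.rfl⟩
  | bot => simp [U.neBot.ne]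
  | imp φ ψ i1 i2 =>
    obtain ⟨a1, a2, a3, a4⟩ := i1
    obtain ⟨b1, b2, b3, b4⟩ := i2
    simp only [sat_imp, a1, a2, a3, a4, b1, b2, b3, b4, Ultrafilter.eventually_imp, implies_true,
      and_self]
  | box φ ih =>
    obtain ⟨a1, a2, a3, a4⟩ := ih
    refine ⟨?_, ?_, ?_, ?_⟩
    · intro a
      simp only [sat_box]
      constructor
      · intro h y hy
        exact (a1 y).1 (h _ (EAcc.oo a y hy))
      · intro h q hq
        cases hq with
        | oo _ b hab => exact (a1 b).2 (h b hab)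
        | ox j => exact (a2 j).2 (Eventually.of_forall fun Φ => h _ (h0 Φ j))
    · intro j
      have key : ∀ Φ : Finset Form, φ ∈ Φ → (Sat R V (xx Φ j) (box φ) ↔
          (Sat R V (zz Φ j) φ ∧ ∀ y ∈ C j, Sat R V y φ)) := by
        intro Φ hΦ
        obtain ⟨S, hS, hS'⟩ := h1 Φ j
        rw [← hS' φ hΦ]
        simp only [sat_box, hS, forall_eq_or_imp]
      have key2 : (∀ᶠ Φ in (U : Filter (Finset Form)), Sat R V (xx Φ j) (box φ)) ↔
          ((∀ᶠ Φ in (U : Filter (Finset Form)), Sat R V (zz Φ j) φ) ∧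
            ∀ y ∈ C j, Sat R V y φ) := by
        rw [eventually_congr ((hU φ).mono key), eventually_and, eventually_const]
      rw [key2]
      simp only [sat_box]
      constructor
      · intro h
        exact ⟨(a3 j).1 (h _ (EAcc.xz j)), fun y hy => (a1 y).1 (h _ (EAcc.xo j y hy))⟩
      · rintro ⟨h4, h5⟩ q hq
        cases hq with
        | xo _ b hb => exact (a1 b).2 (h5 b hb)
        | xz _ => exact (a3 j).2 h4
    · intro j
      have key : ∀ Φ : Finset Form, φ ∈ Φ → (Sat R V (zz Φ j) (box φ) ↔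
          (Sat R V (ee Φ j) φ ∧ ∀ y ∈ D j, Sat R V y φ)) := by
        intro Φ hΦ
        obtain ⟨S, hS, hS'⟩ := h2 Φ j
        rw [← hS' φ hΦ]
        simp only [sat_box, hS, forall_eq_or_imp]
      have key2 : (∀ᶠ Φ in (U : Filter (Finset Form)), Sat R V (zz Φ j) (box φ)) ↔
          ((∀ᶠ Φ in (U : Filter (Finset Form)), Sat R V (ee Φ j) φ) ∧
            ∀ y ∈ D j, Sat R V y φ) := by
        rw [eventually_congr ((hU φ).mono key), eventually_and, eventually_const]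
      rw [key2]
      simp only [sat_box]
      constructor
      · intro h
        exact ⟨(a4 j).1 (h _ (EAcc.ze j)), fun y hy => (a1 y).1 (h _ (EAcc.zo j y hy))⟩
      · rintro ⟨h4, h5⟩ q hq
        cases hq with
        | zo _ b hb => exact (a1 b).2 (h5 b hb)
        | ze _ => exact (a4 j).2 h4
    · intro j
      constructor
      · intro _
        exact Eventually.of_forall fun Φ y hy => absurd hy (h3 Φ j y)
      · intro _ q hq
        cases hq

end Truth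

/-! ### The data of the extension -/

section Data

variable {W : Type} {R : W → W → Prop} {V : ℕ → W → Prop} {B : Set (Set W)}

/-- The set that belongs to a root. -/
def UU (R : W → W → Prop) (w : W) : Set W := {y | ∃ x, SC R w x ∧ SU R x y}

theorem isN_of_su {x y : W} (h : SU R x y) : IsN R y := by
  rcases h with h | ⟨z, _, _, _, h⟩
  · exact h.2
  · exact h

theorem isE_not_isZ {x : W} (h : IsE R x) : ¬ IsZ R x := by
  rintro ⟨y, hy, _⟩
  exact h y hy

theorem isN_not_isE {x : W} (h : IsN R x) : ¬ IsE R x := by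
  obtain ⟨_, y, hy, _⟩ := h
  intro h
  exact h y hy

theorem isR_not_isN {x : W} (h : IsR R x) : ¬ IsN R x := by
  intro h'
  exact h.2.1 h'.2

theorem isR_not_isE {x : W} (h : IsR R x) : ¬ IsE R x := by
  obtain ⟨_, _, y, hy, _⟩ := h
  intro h
  exact h y hy

theorem exists_data (h : Pre R V B) (w : W) (hw : T2 R w) (P : Set W) (Φ : Finset Form) :
    ∃ x z e : W, R w x ∧ IsN R x ∧ IsZ R z ∧
      (∃ S : Set W, (∀ y, R x y ↔ y = z ∨ y ∈ S) ∧
        ∀ χ ∈ Φ, ((∀ y ∈ S, Sat R V y χ) ↔ (∀ y ∈ UU R w ∩ P, Sat R V y χ))) ∧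
      (∃ S : Set W, (∀ y, R z y ↔ y = e ∨ y ∈ S) ∧
        ∀ χ ∈ Φ, ((∀ y ∈ S, Sat R V y χ) ↔ (∀ y ∈ UU R w ∩ Pᶜ, Sat R V y χ))) ∧
      IsE R e := by
  classical
  -- the internal set
  have hn : ∀ χ : Form, ∃ a : W, (∃ y ∈ UU R w ∩ Pᶜ, ¬ Sat R V y χ) →
      a ∈ UU R w ∩ Pᶜ ∧ ¬ Sat R V a χ := by
    intro χ
    by_cases h1 : ∃ y ∈ UU R w ∩ Pᶜ, ¬ Sat R V y χ
    · obtain ⟨a, ha⟩ := h1
      exact ⟨a, fun _ => ha⟩
    · exact ⟨w, fun h2 => absurd h2 h1⟩
  choose n hn using hn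
  let Q : Form → Set W := fun χ => {y | ((∃ y' ∈ UU R w ∩ P, ¬ Sat R V y' χ) ∨ Sat R V y χ) ∧
    ((∃ y' ∈ UU R w ∩ Pᶜ, ¬ Sat R V y' χ) → y ≠ n χ)}
  have hQ : ∀ χ, Q χ ∈ B := by
    intro χ
    have e1 : {y | (∃ y' ∈ UU R w ∩ P, ¬ Sat R V y' χ) ∨ Sat R V y χ} ∈ B := by
      by_cases h1 : ∃ y' ∈ UU R w ∩ P, ¬ Sat R V y' χ
      · convert h.univ using 1
        ext y
        exact ⟨fun _ => trivial, fun _ => Or.inl h1⟩
      · convert h.sat χ using 1
        ext y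
        simp only [h1, false_or, Set.mem_ofPred_eq]
    have e2 : {y | (∃ y' ∈ UU R w ∩ Pᶜ, ¬ Sat R V y' χ) → y ≠ n χ} ∈ B := by
      by_cases h1 : ∃ y' ∈ UU R w ∩ Pᶜ, ¬ Sat R V y' χ
      · convert h.ne (n χ) using 1
        ext y
        simp only [h1, forall_const, Set.mem_ofPred_eq]
      · convert h.univ using 1
        ext y
        exact ⟨fun _ => trivial, fun _ h2 => absurd h2 h1⟩
    exact h.inter _ e1 _ e2
  have hP' : ∀ Ψ : Finset Form, {y | ∀ χ ∈ Ψ, y ∈ Q χ} ∈ B := by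
    intro Ψ
    induction Ψ using Finset.induction_on with
    | empty =>
      convert h.univ using 1
      ext y
      simp
    | insert a s _ ih =>
      convert h.inter _ (hQ a) _ ih using 1
      ext y
      simp
  obtain ⟨x, hx, hC, hD⟩ := h.k7 w hw _ (hP' Φ)
  have hU : ∀ y, SU R x y ↔ y ∈ UU R w := by
    intro y
    constructor
    · intro hy
      exact ⟨x, hx, hy⟩
    · rintro ⟨x', hx', hy⟩
      exact h.k5 w hw x' x hx' hx y hy
  obtain ⟨z, hxz, hz⟩ := hx.2.2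
  obtain ⟨e, hze, he⟩ := id hz
  have hSC : ∀ y, SC R x y ↔ y ∈ UU R w ∧ ∀ χ ∈ Φ, y ∈ Q χ := by
    intro y
    constructor
    · intro hy
      exact ⟨(hU y).1 (Or.inl hy), hC y hy⟩
    · rintro ⟨h1, h2⟩
      rcases (hU y).2 h1 with h3 | h3
      · exact h3
      · exact absurd h2 (hD y h3)
  have hSD : ∀ y, SD R x y ↔ y ∈ UU R w ∧ ¬ ∀ χ ∈ Φ, y ∈ Q χ := by
    intro y
    constructor
    · intro hy
      exact ⟨(hU y).1 (Or.inr hy), hD y hy⟩
    · rintro ⟨h1, h2⟩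
      rcases (hU y).2 h1 with h3 | h3
      · exact absurd (hC y h3) h2
      · exact h3
  have hsub : ∀ y ∈ UU R w ∩ P, ∀ χ ∈ Φ, y ∈ Q χ := by
    intro y hy χ _
    refine ⟨?_, ?_⟩
    · by_cases h1 : Sat R V y χ
      · exact Or.inr h1
      · exact Or.inl ⟨y, hy, h1⟩
    · rintro h1 rfl
      exact (hn χ h1).1.2 hy.2
  refine ⟨x, z, e, hx.1, hx.2, hz, ⟨{y | SC R x y}, ?_, ?_⟩, ⟨{y | SD R x y}, ?_, ?_⟩, he⟩
  · intro y
    constructor
    · intro hy
      rcases h.k1 x y hx.2 hy with h1 | h1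
      · exact Or.inr ⟨hy, h1⟩
      · exact Or.inl (h.k3 x y z hx.2 hy h1 hxz hz)
    · rintro (rfl | h1)
      · exact hxz
      · exact h1.1
  · intro χ hχ
    constructor
    · intro h1 y hy
      exact h1 y ((hSC y).2 ⟨hy.1, hsub y hy⟩)
    · intro h1 y hy
      rcases (((hSC y).1 hy).2 χ hχ).1 with ⟨y', hy', h2⟩ | h2
      · exact absurd (h1 y' hy') h2
      · exact h2
  · intro y
    constructor
    · intro hy
      rcases h.k2 z y hz hy with h1 | h1
      · exact Or.inr ⟨z, hxz, hz, hy, h1⟩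
      · exact Or.inl (h.k4 z y e hz hy h1 hze he)
    · rintro (rfl | ⟨z', h1, h2, h3, _⟩)
      · exact hze
      · rwa [h.k3 x z z' hx.2 hxz hz h1 h2]
  · intro χ hχ
    constructor
    · intro h1
      by_contra hcon
      push Not at hcon
      have h2 := hn χ hcon
      refine h2.2 (h1 _ ((hSD _).2 ⟨h2.1.1, ?_⟩))
      intro h3
      exact (h3 χ hχ).2 hcon rfl
    · intro h1 y hy
      apply h1
      refine ⟨((hSD y).1 hy).1, ?_⟩
      intro hyP
      exact ((hSD y).1 hy).2 (hsub y ⟨((hSD y).1 hy).1, hyP⟩)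

end Data

end Pool.Agent.H.MP_e3277b_lc
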