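import Pool.Agent.H.MP_e3277b_lc.SDefs

/-!
The class of frames, its defining formulas, and the logic of the class.
-/

namespace Pool.Agent.H.MP_e3277b_lc

open Form

universe u v

section Types

variable {W : Type u}

/-- `x` has no successor. -/
def IsE (R : W → W → Prop) (x : W) : Prop := ∀ y, ¬ R x y

/-- `x` has a successor without successors. -/
def IsZ (R : W → W → Prop) (x : W) : Prop := ∃ y, R x y ∧ IsE R y

/-- `x` is not of type `IsZ`, but has a successor of this type. -/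
def IsN (R : W → W → Prop) (x : W) : Prop := ¬ IsZ R x ∧ ∃ y, R x y ∧ IsZ R y

/-- Roots. -/
def IsR (R : W → W → Prop) (x : W) : Prop :=
  ¬ IsZ R x ∧ (¬ ∃ y, R x y ∧ IsZ R y) ∧ ∃ y, R x y ∧ ∃ z, R y z ∧ IsZ R z

/-- `y` is an `N`-successor of `x`. -/
def SC (R : W → W → Prop) (x y : W) : Prop := R x y ∧ IsN R y

/-- `y` is an `N`-successor of a `Z`-successor of `x`. -/
def SD (R : W → W → Prop) (x y : W) : Prop := ∃ z, R x z ∧ IsZ R z ∧ R z y ∧ IsN R y

/-- The union of the two relations. -/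
def SU (R : W → W → Prop) (x y : W) : Prop := SC R x y ∨ SD R x y

/-- Roots of the second kind. -/
def T2 (R : W → W → Prop) (w : W) : Prop := IsR R w ∧ ∃ s, R w s ∧ IsR R s ∧ ¬ R s s

/-- The conditions K1 to K6. -/
structure InK6 (R : W → W → Prop) : Prop where
  k1 : ∀ x y, IsN R x → R x y → IsN R y ∨ IsZ R y
  k2 : ∀ x y, IsZ R x → R x y → IsN R y ∨ IsE R y
  k3 : ∀ x z z', IsN R x → R x z → IsZ R z → R x z' → IsZ R z' → z = z'
  k4 : ∀ z e e', IsZ R z → R z e → IsE R e → R z e' → IsE R e' → e = e'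
  k5 : ∀ w, T2 R w → ∀ x x', SC R w x → SC R w x' → ∀ y, SU R x y → SU R x' y
  k6 : ∀ w, IsR R w → ¬ R w w → ∀ x, SC R w x → SU R x x

/-- The class of frames. -/
structure InK (R : W → W → Prop) : Prop extends InK6 R where
  k7 : ∀ w, T2 R w → ∀ P : Set W, ∃ x, SC R w x ∧ (∀ y, SC R x y → y ∈ P) ∧
    (∀ y, SD R x y → y ∉ P)

end Types

/-- The formula for `IsE`. -/
def fE : Form := box bot

/-- The formula for `IsZ`. -/
def fZ : Form := dia fE

/-- The formula for `IsN`. -/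
def fN : Form := Form.and (neg fZ) (dia fZ)

/-- The formula for `IsR`. -/
def fR : Form := Form.and (neg fZ) (Form.and (neg (dia fZ)) (dia (dia fZ)))

/-- `y` satisfies `p` for all `y` with `SU x y`. -/
def fU (p : Form) : Form :=
  Form.and (box (imp fN p)) (box (imp fZ (box (imp fN p))))

/-- The formula for an irreflexive root. -/
def fI (i : ℕ) : Form := Form.and fR (Form.and (var i) (box (neg (var i))))

/-- The formula for `T2`. -/
def fT (i : ℕ) : Form := Form.and fR (dia (fI i))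

/-- First formula. -/
def a1 : Form := imp fN (box (Form.or fN fZ))

/-- Second formula. -/
def a2 : Form := imp fZ (box (Form.or fN fE))

/-- Third formula. -/
def a3 : Form := imp (Form.and fN (dia (Form.and fZ (var 0)))) (box (imp fZ (var 0)))

/-- Fourth formula. -/
def a4 : Form := imp (Form.and fZ (dia (Form.and fE (var 0)))) (box (imp fE (var 0)))

/-- Fifth formula. -/
def a5 : Form :=
  imp (Form.and (fT 1) (dia (Form.and fN (fU (var 0))))) (box (imp fN (fU (var 0))))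

/-- Sixth formula. -/
def a6 : Form := imp (fI 1) (box (imp (Form.and fN (fU (var 0))) (var 0)))

/-- Seventh formula. -/
def a7 : Form :=
  imp (fT 1) (dia (Form.and fN (Form.and (box (imp fN (var 0)))
    (box (imp fZ (box (imp fN (neg (var 0)))))))))

section Sat

variable {W : Type u} {R : W → W → Prop} {V : ℕ → W → Prop} {x : W}

theorem sat_fE : Sat R V x fE ↔ IsE R x := by
  simp [fE, IsE]

theorem sat_fZ : Sat R V x fZ ↔ IsZ R x := by
  simp [fZ, IsZ, sat_fE]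

theorem sat_fN : Sat R V x fN ↔ IsN R x := by
  simp [fN, IsN, sat_fZ]

theorem sat_fR : Sat R V x fR ↔ IsR R x := by
  simp [fR, IsR, sat_fZ]

theorem sat_fU {p : Form} : Sat R V x (fU p) ↔ ∀ y, SU R x y → Sat R V y p := by
  simp only [fU, sat_and, sat_box, sat_imp, sat_fN, sat_fZ, SU, SC, SD]
  constructor
  · rintro ⟨h1, h2⟩ y (⟨h3, h4⟩ | ⟨z, h3, h4, h5, h6⟩)
    · exact h1 y h3 h4
    · exact h2 z h3 h4 y h5 h6
  · intro h
    exact ⟨fun y h1 h2 => h y (Or.inl ⟨h1, h2⟩),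
      fun z h1 h2 y h3 h4 => h y (Or.inr ⟨z, h1, h2, h3, h4⟩)⟩

theorem sat_fI {i : ℕ} : Sat R V x (fI i) ↔ IsR R x ∧ V i x ∧ ∀ y, R x y → ¬ V i y := by
  simp [fI, sat_fR]

theorem sat_fT {i : ℕ} : Sat R V x (fT i) ↔
    IsR R x ∧ ∃ s, R x s ∧ IsR R s ∧ V i s ∧ ∀ y, R s y → ¬ V i y := by
  simp [fT, sat_fR, sat_fI]

theorem t2_of_sat_fT {i : ℕ} (h : Sat R V x (fT i)) : T2 R x := by
  obtain ⟨h1, s, h2, h3, h4, h5⟩ := sat_fT.1 h
  exact ⟨h1, s, h2, h3, fun h6 => h5 s h6 h4⟩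

theorem valid_of_inK (h : InK R) : Sat R V x a1 ∧ Sat R V x a2 ∧ Sat R V x a3 ∧
    Sat R V x a4 ∧ Sat R V x a5 ∧ Sat R V x a6 ∧ Sat R V x a7 := by
  refine ⟨?_, ?_, ?_, ?_, ?_, ?_, ?_⟩
  · simp only [a1, sat_imp, sat_box, sat_or, sat_fN, sat_fZ]
    intro h1 y hy
    exact h.k1 x y h1 hy
  · simp only [a2, sat_imp, sat_box, sat_or, sat_fN, sat_fZ, sat_fE]
    intro h1 y hy
    exact h.k2 x y h1 hy
  · simp only [a3, sat_imp, sat_box, sat_and, sat_dia, sat_fN, sat_fZ, sat_var]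
    rintro ⟨h1, z, h2, h3, h4⟩ z' h5 h6
    rwa [← h.k3 x z z' h1 h2 h3 h5 h6]
  · simp only [a4, sat_imp, sat_box, sat_and, sat_dia, sat_fE, sat_fZ, sat_var]
    rintro ⟨h1, z, h2, h3, h4⟩ z' h5 h6
    rwa [← h.k4 x z z' h1 h2 h3 h5 h6]
  · simp only [a5, sat_imp, sat_box, sat_and, sat_dia, sat_fN, sat_fU, sat_var]
    rintro ⟨h1, z, h2, h3, h4⟩ z' h5 h6 y hy
    exact h4 y (h.k5 x (t2_of_sat_fT h1) z' z ⟨h5, h6⟩ ⟨h2, h3⟩ y hy)
  · simp only [a6, sat_imp, sat_box, sat_and, sat_fN, sat_fU, sat_var, sat_fI]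
    rintro ⟨h1, h2, h3⟩ z h5 ⟨h6, h7⟩
    exact h7 z (h.k6 x h1 (fun hx => h3 x hx h2) z ⟨h5, h6⟩)
  · simp only [a7, sat_imp, sat_box, sat_and, sat_dia, sat_neg, sat_fN, sat_fZ, sat_var]
    intro h1
    obtain ⟨y, hy, h2, h3⟩ := h.k7 x (t2_of_sat_fT h1) {y | V 0 y}
    refine ⟨y, hy.1, hy.2, ?_, ?_⟩
    · intro z hz hz'
      exact h2 z ⟨hz, hz'⟩
    · intro z hz hz' t ht ht'
      exact h3 t ⟨z, hz, hz', ht, ht'⟩

theorem inK_of_valid (h : ∀ (V : ℕ → W → Prop) (x : W), Sat R V x a1 ∧ Sat R V x a2 ∧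
    Sat R V x a3 ∧ Sat R V x a4 ∧ Sat R V x a5 ∧ Sat R V x a6 ∧ Sat R V x a7) : InK R where
  k1 := by
    intro x y hx hy
    have h1 := (h (fun _ _ => False) x).1
    simp only [a1, sat_imp, sat_box, sat_or, sat_fN, sat_fZ] at h1
    exact h1 hx y hy
  k2 := by
    intro x y hx hy
    have h1 := (h (fun _ _ => False) x).2.1
    simp only [a2, sat_imp, sat_box, sat_or, sat_fN, sat_fZ, sat_fE] at h1
    exact h1 hx y hy
  k3 := by
    intro x z z' hx h1 h2 h3 h4
    have h5 := (h (fun _ t => z = t) x).2.2.1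
    simp only [a3, sat_imp, sat_box, sat_and, sat_dia, sat_fN, sat_fZ, sat_var] at h5
    exact h5 ⟨hx, z, h1, h2, rfl⟩ z' h3 h4
  k4 := by
    intro x z z' hx h1 h2 h3 h4
    have h5 := (h (fun _ t => z = t) x).2.2.2.1
    simp only [a4, sat_imp, sat_box, sat_and, sat_dia, sat_fE, sat_fZ, sat_var] at h5
    exact h5 ⟨hx, z, h1, h2, rfl⟩ z' h3 h4
  k5 := by
    rintro w ⟨hw, s, h1, h2, h3⟩ x x' hx hx' y hy
    have h5 := (h (fun n t => if n = 0 then SU R x' t else t = s) w).2.2.2.2.1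
    simp only [a5, sat_imp, sat_box, sat_and, sat_dia, sat_fN, sat_fU, sat_var, sat_fT] at h5
    refine h5 ⟨⟨hw, s, h1, h2, by simp, ?_⟩, x', hx'.1, hx'.2, ?_⟩ x hx.1 hx.2 y hy
    · intro t ht
      simp only [one_ne_zero, if_false]
      rintro rfl
      exact h3 ht
    · intro t ht
      simpa using ht
  k6 := by
    intro w hw h1 x hx
    have h5 := (h (fun n t => if n = 0 then SU R x t else t = w) w).2.2.2.2.2.1
    simp only [a6, sat_imp, sat_box, sat_and, sat_fN, sat_fU, sat_var, sat_fI] at h5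
    refine h5 ⟨hw, by simp, ?_⟩ x hx.1 ⟨hx.2, ?_⟩
    · intro t ht
      simp only [one_ne_zero, if_false]
      rintro rfl
      exact h1 ht
    · intro t ht
      simpa using ht
  k7 := by
    rintro w ⟨hw, s, h1, h2, h3⟩ P
    have h5 := (h (fun n t => if n = 0 then t ∈ P else t = s) w).2.2.2.2.2.2
    simp only [a7, sat_imp, sat_box, sat_and, sat_dia, sat_neg, sat_fN, sat_fZ, sat_var,
      sat_fT] at h5
    obtain ⟨y, hy1, hy2, hy3, hy4⟩ := h5 ⟨hw, s, h1, h2, by simp, by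
      intro t ht
      simp only [one_ne_zero, if_false]
      rintro rfl
      exact h3 ht⟩
    refine ⟨y, ⟨hy1, hy2⟩, ?_, ?_⟩
    · intro t ht
      simpa using hy3 t ht.1 ht.2
    · rintro t ⟨z, hz1, hz2, hz3, hz4⟩
      simpa using hy4 z hz1 hz2 t hz3 hz4

end Sat

/-- The logic of the class. -/
def LogicK : Set Form :=
  {φ | ∀ (W : Type) (R : W → W → Prop), InK R → ∀ (V : ℕ → W → Prop) (x : W), Sat R V x φ}

theorem isNormal_K : IsNormal LogicK where
  taut φ h W R _ V x := h (fun ψ => Sat R V x ψ) (by simp) (by simp)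
  axK φ ψ W R _ V x := by
    simp only [sat_imp, sat_box]
    intro h1 h2 y hy
    exact h1 y hy (h2 y hy)
  mp φ ψ h1 h2 W R ht V x := h1 W R ht V x (h2 W R ht V x)
  nec φ h W R ht V x := by
    intro y _
    exact h W R ht V y
  subst φ s h W R ht V x := by
    rw [sat_subst]
    exact h W R ht _ x

theorem inK_of_frameFor {W : Type u} {R : W → W → Prop} (h : FrameFor LogicK R) : InK R := by
  apply inK_of_valid
  intro V x
  refine ⟨h _ ?_ V x, h _ ?_ V x, h _ ?_ V x, h _ ?_ V x, h _ ?_ V x, h _ ?_ V x, h _ ?_ V x⟩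
  · intro W R hR V x
    exact (valid_of_inK hR).1
  · intro W R hR V x
    exact (valid_of_inK hR).2.1
  · intro W R hR V x
    exact (valid_of_inK hR).2.2.1
  · intro W R hR V x
    exact (valid_of_inK hR).2.2.2.1
  · intro W R hR V x
    exact (valid_of_inK hR).2.2.2.2.1
  · intro W R hR V x
    exact (valid_of_inK hR).2.2.2.2.2.1
  · intro W R hR V x
    exact (valid_of_inK hR).2.2.2.2.2.2

theorem frameFor_of_inK {W : Type} {R : W → W → Prop} (h : InK R) : FrameFor LogicK R :=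
  fun _ hφ V x => hφ W R h V x

/-- No root of the second kind is irreflexive. -/
theorem refl_of_t2 {W : Type u} {R : W → W → Prop} (h : InK R) {w : W} (hw : T2 R w) :
    R w w := by
  by_contra hn
  obtain ⟨x, hx, h1, h2⟩ := h.k7 w hw {y | ¬ SC R y y}
  have h3 : ¬ SC R x x := by
    intro h4
    exact h1 x h4 h4
  rcases h.k6 w hw.1 hn x hx with h4 | h4
  · exact h3 h4
  · exact h2 x h4 h3

end Pool.Agent.H.MP_e3277b_lc
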