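import Pool.Agent.H.MP_e3277b_lc.SExt

/-!
The logic is strongly Kripke complete.
-/

namespace Pool.Agent.H.MP_e3277b_lc

open Form Filter

universe u

section Frame

variable {W J : Type} {R : W → W → Prop} {V : ℕ → W → Prop} {B : Set (Set W)}
  {root : J → W} {C D : J → Set W}

/-- The extended frame belongs to the class, if the types of its points are known. -/
theorem inK_ext (h : Pre R V B) (hroot : ∀ j, T2 R (root j))
    (hCD : ∀ j y, (y ∈ C j ∨ y ∈ D j) ↔ y ∈ UU R (root j))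
    (hex : ∀ w, T2 R w → ∀ P : Set W, ∃ j, root j = w ∧ C j ⊆ P ∧ D j ⊆ Pᶜ)
    (tE : ∀ a, IsE (EAcc R root C D) (Ext.old a) ↔ IsE R a)
    (tZ : ∀ a, IsZ (EAcc R root C D) (Ext.old a) ↔ IsZ R a)
    (tN : ∀ a, IsN (EAcc R root C D) (Ext.old a) ↔ IsN R a)
    (tR : ∀ a, IsR (EAcc R root C D) (Ext.old a) ↔ IsR R a)
    (nxN : ∀ j, IsN (EAcc R root C D) (Ext.nx j))
    (nzZ : ∀ j, IsZ (EAcc R root C D) (Ext.nz j))
    (neE : ∀ j, IsE (EAcc R root C D) (Ext.ne j)) : InK (EAcc R root C D) := by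
  have uN : ∀ j y, y ∈ UU R (root j) → IsN R y := by
    rintro j y ⟨x, _, hx⟩
    exact isN_of_su hx
  have cN : ∀ j y, y ∈ C j → IsN R y := fun j y hy => uN j y ((hCD j y).1 (Or.inl hy))
  have dN : ∀ j y, y ∈ D j → IsN R y := fun j y hy => uN j y ((hCD j y).1 (Or.inr hy))
  -- roots of the second kind
  have hT2 : ∀ p, T2 (EAcc R root C D) p → ∃ w, p = Ext.old w ∧ T2 R w := by
    rintro p ⟨h1, s, h2, h3, h4⟩
    cases h2 with
    | oo a b hab =>
      exact ⟨a, rfl, (tR a).1 h1, b, hab, (tR b).1 h3, fun hb => h4 (EAcc.oo b b hb)⟩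
    | ox j => exact absurd (nxN j) (isR_not_isN h3)
    | xo j b hb => exact absurd (nxN j) (isR_not_isN h1)
    | xz j => exact absurd (nxN j) (isR_not_isN h1)
    | zo j b hb => exact absurd (nzZ j) h1.1
    | ze j => exact absurd (nzZ j) h1.1
  -- successors of old nodes
  have hSCo : ∀ a, IsN R a → ∀ q, SC (EAcc R root C D) (Ext.old a) q ↔
      ∃ b, q = Ext.old b ∧ SC R a b := by
    intro a ha q
    constructor
    · rintro ⟨h1, h2⟩
      cases h1 with
      | oo _ b hab => exact ⟨b, rfl, hab, (tN b).1 h2⟩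
      | ox j => exact absurd ha (isR_not_isN (hroot j).1)
    · rintro ⟨b, rfl, hb⟩
      exact ⟨EAcc.oo a b hb.1, (tN b).2 hb.2⟩
  have hSDo : ∀ a, IsN R a → ∀ q, SD (EAcc R root C D) (Ext.old a) q ↔
      ∃ b, q = Ext.old b ∧ SD R a b := by
    intro a ha q
    constructor
    · rintro ⟨z, h1, h2, h3, h4⟩
      cases h1 with
      | oo _ b hab =>
        have hb : IsZ R b := (tZ b).1 h2
        cases h3 with
        | oo _ c hbc => exact ⟨c, rfl, b, hab, hb, hbc, (tN c).1 h4⟩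
        | ox j => exact absurd hb (hroot j).1.1
      | ox j => exact absurd ha (isR_not_isN (hroot j).1)
    · rintro ⟨c, rfl, b, h1, h2, h3, h4⟩
      exact ⟨Ext.old b, EAcc.oo a b h1, (tZ b).2 h2, EAcc.oo b c h3, (tN c).2 h4⟩
  have hSUo : ∀ a, IsN R a → ∀ q, SU (EAcc R root C D) (Ext.old a) q ↔
      ∃ b, q = Ext.old b ∧ SU R a b := by
    intro a ha q
    simp only [SU, hSCo a ha, hSDo a ha]
    constructor
    · rintro (⟨b, h1, h2⟩ | ⟨b, h1, h2⟩)
      · exact ⟨b, h1, Or.inl h2⟩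
      · exact ⟨b, h1, Or.inr h2⟩
    · rintro ⟨b, h1, h2 | h2⟩
      · exact Or.inl ⟨b, h1, h2⟩
      · exact Or.inr ⟨b, h1, h2⟩
  -- successors of new nodes
  have hSCn : ∀ j q, SC (EAcc R root C D) (Ext.nx j) q ↔ ∃ b, q = Ext.old b ∧ b ∈ C j := by
    intro j q
    constructor
    · rintro ⟨h1, h2⟩
      cases h1 with
      | xo _ b hb => exact ⟨b, rfl, hb⟩
      | xz _ => exact absurd (nzZ j) h2.1
    · rintro ⟨b, rfl, hb⟩
      exact ⟨EAcc.xo j b hb, (tN b).2 (cN j b hb)⟩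
  have hSDn : ∀ j q, SD (EAcc R root C D) (Ext.nx j) q ↔ ∃ b, q = Ext.old b ∧ b ∈ D j := by
    intro j q
    constructor
    · rintro ⟨z, h1, h2, h3, h4⟩
      cases h1 with
      | xo _ b hb => exact absurd ((tZ b).1 h2) (cN j b hb).1
      | xz _ =>
        cases h3 with
        | zo _ b hb => exact ⟨b, rfl, hb⟩
        | ze _ => exact absurd (neE j) (isN_not_isE h4)
    · rintro ⟨b, rfl, hb⟩
      exact ⟨Ext.nz j, EAcc.xz j, nzZ j, EAcc.zo j b hb, (tN b).2 (dN j b hb)⟩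
  have hSUn : ∀ j q, SU (EAcc R root C D) (Ext.nx j) q ↔
      ∃ b, q = Ext.old b ∧ b ∈ UU R (root j) := by
    intro j q
    simp only [SU, hSCn j, hSDn j]
    constructor
    · rintro (⟨b, h1, h2⟩ | ⟨b, h1, h2⟩)
      · exact ⟨b, h1, (hCD j b).1 (Or.inl h2)⟩
      · exact ⟨b, h1, (hCD j b).1 (Or.inr h2)⟩
    · rintro ⟨b, h1, h2⟩
      rcases (hCD j b).2 h2 with h3 | h3
      · exact Or.inl ⟨b, h1, h3⟩
      · exact Or.inr ⟨b, h1, h3⟩
  -- nodes below a root
  have hroots : ∀ w, IsR R w → ∀ p, SC (EAcc R root C D) (Ext.old w) p →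
      (∃ a, p = Ext.old a ∧ SC R w a) ∨ (∃ j, p = Ext.nx j ∧ root j = w) := by
    intro w _ p hp
    obtain ⟨h1, h2⟩ := hp
    cases h1 with
    | oo _ b hab => exact Or.inl ⟨b, rfl, hab, (tN b).1 h2⟩
    | ox j => exact Or.inr ⟨j, rfl, rfl⟩
  have hSU : ∀ w, T2 R w → ∀ p, SC (EAcc R root C D) (Ext.old w) p → ∀ q,
      SU (EAcc R root C D) p q ↔ ∃ b, q = Ext.old b ∧ b ∈ UU R w := by
    intro w hw p hp q
    rcases hroots w hw.1 p hp with ⟨a, rfl, ha⟩ | ⟨j, rfl, rfl⟩
    · rw [hSUo a ha.2]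
      constructor
      · rintro ⟨b, h1, h2⟩
        exact ⟨b, h1, a, ha, h2⟩
      · rintro ⟨b, h1, x, h2, h3⟩
        exact ⟨b, h1, h.k5 w hw x a h2 ha b h3⟩
    · exact hSUn j q
  refine ⟨⟨?_, ?_, ?_, ?_, ?_, ?_⟩, ?_⟩
  · -- k1
    intro p q hp hpq
    cases hpq with
    | oo a b hab => rw [tN, tZ]; exact h.k1 a b ((tN a).1 hp) hab
    | ox j => exact Or.inl (nxN j)
    | xo j b hb => exact Or.inl ((tN b).2 (cN j b hb))
    | xz j => exact Or.inr (nzZ j)
    | zo j b hb => exact Or.inl ((tN b).2 (dN j b hb))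
    | ze j => exact absurd (nzZ j) hp.1
  · -- k2
    intro p q hp hpq
    cases hpq with
    | oo a b hab => rw [tN, tE]; exact h.k2 a b ((tZ a).1 hp) hab
    | ox j => exact Or.inl (nxN j)
    | xo j b hb => exact Or.inl ((tN b).2 (cN j b hb))
    | xz j => exact absurd hp (nxN j).1
    | zo j b hb => exact Or.inl ((tN b).2 (dN j b hb))
    | ze j => exact Or.inr (neE j)
  · -- k3
    intro p z z' hp h1 h2 h3 h4
    cases h1 with
    | oo a b hab =>
      cases h3 with
      | oo _ c hac => rw [h.k3 a b c ((tN a).1 hp) hab ((tZ b).1 h2) hac ((tZ c).1 h4)]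
      | ox j => exact absurd h4 (nxN j).1
    | ox j => exact absurd h2 (nxN j).1
    | xo j b hb => exact absurd ((tZ b).1 h2) (cN j b hb).1
    | xz j =>
      cases h3 with
      | xo _ b hb => exact absurd ((tZ b).1 h4) (cN j b hb).1
      | xz _ => rfl
    | zo j b hb => exact absurd (nzZ j) hp.1
    | ze j => exact absurd (nzZ j) hp.1
  · -- k4
    intro p z z' hp h1 h2 h3 h4
    cases h1 with
    | oo a b hab =>
      cases h3 with
      | oo _ c hac => rw [h.k4 a b c ((tZ a).1 hp) hab ((tE b).1 h2) hac ((tE c).1 h4)]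
      | ox j => exact absurd h4 (isN_not_isE (nxN j))
    | ox j => exact absurd h2 (isN_not_isE (nxN j))
    | xo j b hb => exact absurd hp (nxN j).1
    | xz j => exact absurd hp (nxN j).1
    | zo j b hb => exact absurd ((tE b).1 h2) (isN_not_isE (dN j b hb))
    | ze j =>
      cases h3 with
      | zo _ b hb => exact absurd ((tE b).1 h4) (isN_not_isE (dN j b hb))
      | ze _ => rfl
  · -- k5
    intro p hp x x' hx hx' y hy
    obtain ⟨w, rfl, hw⟩ := hT2 p hp
    rw [hSU w hw x' hx']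
    rwa [hSU w hw x hx] at hy
  · -- k6
    intro p hp hn x hx
    have hw : ∃ w, p = Ext.old w := by
      cases p with
      | old a => exact ⟨a, rfl⟩
      | nx j => exact absurd (nxN j) (isR_not_isN hp)
      | nz j => exact absurd (nzZ j) hp.1
      | ne j => exact absurd (neE j) (isR_not_isE hp)
    obtain ⟨w, rfl⟩ := hw
    have hwR : IsR R w := (tR w).1 hp
    have hnw : ¬ R w w := fun h1 => hn (EAcc.oo w w h1)
    rcases hroots w hwR x hx with ⟨a, rfl, ha⟩ | ⟨j, rfl, rfl⟩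
    · rw [hSUo a ha.2]
      exact ⟨a, rfl, h.k6 w hwR hnw a ha⟩
    · exact absurd (h.t2r _ (hroot j)) hnw
  · -- k7
    intro p hp P
    obtain ⟨w, rfl, hw⟩ := hT2 p hp
    obtain ⟨j, rfl, h1, h2⟩ := hex w hw {b | Ext.old b ∈ P}
    refine ⟨Ext.nx j, ⟨EAcc.ox j, nxN j⟩, ?_, ?_⟩
    · intro y hy
      rw [hSCn] at hy
      obtain ⟨b, rfl, hb⟩ := hy
      exact h1 hb
    · intro y hy
      rw [hSDn] at hy
      obtain ⟨b, rfl, hb⟩ := hy
      exact h2 hb

end Frame

/-- Every structure with the properties `Pre` has an extension in the class. -/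
theorem exists_full {W : Type} {R : W → W → Prop} {V : ℕ → W → Prop} {B : Set (Set W)}
    (h : Pre R V B) (x : W) :
    ∃ (W' : Type) (R' : W' → W' → Prop) (V' : ℕ → W' → Prop) (x' : W'),
      InK R' ∧ ∀ φ, Sat R' V' x' φ ↔ Sat R V x φ := by
  classical
  let J : Type := {w // T2 R w} × Set W
  let root : J → W := fun j => j.1.1
  let C : J → Set W := fun j => UU R (root j) ∩ j.2
  let D : J → Set W := fun j => UU R (root j) ∩ j.2ᶜ
  have hd : ∀ (Φ : Finset Form) (j : J), ∃ x z e : W, R (root j) x ∧ IsN R x ∧ IsZ R z ∧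
      (∃ S : Set W, (∀ y, R x y ↔ y = z ∨ y ∈ S) ∧
        ∀ χ ∈ Φ, ((∀ y ∈ S, Sat R V y χ) ↔ (∀ y ∈ C j, Sat R V y χ))) ∧
      (∃ S : Set W, (∀ y, R z y ↔ y = e ∨ y ∈ S) ∧
        ∀ χ ∈ Φ, ((∀ y ∈ S, Sat R V y χ) ↔ (∀ y ∈ D j, Sat R V y χ))) ∧
      IsE R e := fun Φ j => exists_data h j.1.1 j.1.2 j.2 Φ
  choose xx zz ee d1 d2 d3 d4 d5 d6 using hd
  let U : Ultrafilter (Finset Form) := Ultrafilter.of atTop
  have hU : ∀ χ : Form, ∀ᶠ Φ in (U : Filter (Finset Form)), χ ∈ Φ := by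
    intro χ
    apply Ultrafilter.of_le
    filter_upwards [eventually_ge_atTop {χ}] with s hs
    exact hs (Finset.mem_singleton_self χ)
  have hs := sat_ext (R := R) (V := V) (root := root) (C := C) (D := D) hU d1 d4 d5 d6
  have tE : ∀ a, IsE (EAcc R root C D) (Ext.old a) ↔ IsE R a := by
    intro a
    have := (hs fE).1 a
    rwa [sat_fE, sat_fE] at this
  have tZ : ∀ a, IsZ (EAcc R root C D) (Ext.old a) ↔ IsZ R a := by
    intro a
    have := (hs fZ).1 a
    rwa [sat_fZ, sat_fZ] at this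
  have tN : ∀ a, IsN (EAcc R root C D) (Ext.old a) ↔ IsN R a := by
    intro a
    have := (hs fN).1 a
    rwa [sat_fN, sat_fN] at this
  have tR : ∀ a, IsR (EAcc R root C D) (Ext.old a) ↔ IsR R a := by
    intro a
    have := (hs fR).1 a
    rwa [sat_fR, sat_fR] at this
  have nxN : ∀ j, IsN (EAcc R root C D) (Ext.nx j) := by
    intro j
    have := (hs fN).2.1 j
    simp only [sat_fN] at this
    exact this.2 (Eventually.of_forall fun Φ => d2 Φ j)
  have nzZ : ∀ j, IsZ (EAcc R root C D) (Ext.nz j) := by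
    intro j
    have := (hs fZ).2.2.1 j
    simp only [sat_fZ] at this
    exact this.2 (Eventually.of_forall fun Φ => d3 Φ j)
  have neE : ∀ j, IsE (EAcc R root C D) (Ext.ne j) := by
    intro j q hq
    cases hq
  refine ⟨Ext W J, EAcc R root C D, EV U xx zz ee V, Ext.old x, ?_, fun φ => (hs φ).1 x⟩
  refine inK_ext h (fun j => j.1.2) ?_ ?_ tE tZ tN tR nxN nzZ neE
  · intro j y
    by_cases hy : y ∈ j.2
    · constructor
      · rintro (h1 | h1)
        · exact h1.1
        · exact h1.1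
      · intro h1
        exact Or.inl ⟨h1, hy⟩
    · constructor
      · rintro (h1 | h1)
        · exact h1.1
        · exact h1.1
      · intro h1
        exact Or.inr ⟨h1, hy⟩
  · intro w hw P
    exact ⟨(⟨w, hw⟩, P), rfl, Set.inter_subset_right, Set.inter_subset_right⟩

/-- The relation on lifted points. -/
theorem sat_lift {W : Type} {R : W → W → Prop} {V : ℕ → ULift.{u} W → Prop} (φ : Form) :
    ∀ x : ULift.{u} W, Sat (fun a b : ULift.{u} W => R a.down b.down) V x φ ↔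
      Sat R (fun n a => V n ⟨a⟩) x.down φ := by
  induction φ with
  | var n => intro x; rfl
  | bot => intro x; simp
  | imp φ ψ h1 h2 => intro x; simp only [sat_imp, h1, h2]
  | box φ ih =>
    intro x
    simp only [sat_box]
    constructor
    · intro h y hy
      exact (ih ⟨y⟩).1 (h ⟨y⟩ hy)
    · intro h y hy
      exact (ih y).2 (h y.down hy)

theorem strong_K : StronglyKripkeComplete.{u} LogicK := by
  intro Γ hΓ
  obtain ⟨W, R, V, B, x, hP, hx⟩ := exists_pre Γ hΓ
  obtain ⟨W', R', V', x', hK, hx'⟩ := exists_full hP x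
  refine ⟨ULift.{u} W', fun a b => R' a.down b.down, fun n a => V' n a.down, ⟨x'⟩, ?_, ?_⟩
  · intro φ hφ V x
    rw [sat_lift]
    exact hφ W' R' hK _ _
  · intro ψ hψ
    rw [sat_lift]
    exact (hx' ψ).2 (hx ψ hψ)

end Pool.Agent.H.MP_e3277b_lc
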