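import Pool.Agent.H.MP_e3277b_lc.SFrames

/-!
There are no bisimilar models.
-/

namespace Pool.Agent.H.MP_e3277b_lc

open Form

universe u v

/-- The relation `Z` satisfies the forth and back conditions. -/
def FB {W₁ : Type u} {W₂ : Type v} (R₁ : W₁ → W₁ → Prop) (R₂ : W₂ → W₂ → Prop)
    (Z : W₁ → W₂ → Prop) : Prop :=
  (∀ x₁ x₂ y₁, Z x₁ x₂ → R₁ x₁ y₁ → ∃ y₂, R₂ x₂ y₂ ∧ Z y₁ y₂) ∧
  (∀ x₁ x₂ y₂, Z x₁ x₂ → R₂ x₂ y₂ → ∃ y₁, R₁ x₁ y₁ ∧ Z y₁ y₂)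

theorem FB.sat {W₁ : Type u} {W₂ : Type v} {R₁ : W₁ → W₁ → Prop} {R₂ : W₂ → W₂ → Prop}
    {Z : W₁ → W₂ → Prop} (h : FB R₁ R₂ Z) (φ : Form) (hφ : φ.sig ⊆ ∅)
    (V₁ : ℕ → W₁ → Prop) (V₂ : ℕ → W₂ → Prop) (x₁ : W₁) (x₂ : W₂) (hx : Z x₁ x₂) :
    Sat R₁ V₁ x₁ φ ↔ Sat R₂ V₂ x₂ φ := by
  have hb : IsBisim (∅ : Set ℕ) R₁ V₁ R₂ V₂ Z :=
    { atoms := by intro _ _ _ n hn; exact absurd hn (Set.notMem_empty n)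
      forth := h.1
      back := h.2 }
  exact bisim_sat hb φ hφ x₁ x₂ hx

theorem FB.isN {W₁ : Type u} {W₂ : Type v} {R₁ : W₁ → W₁ → Prop} {R₂ : W₂ → W₂ → Prop}
    {Z : W₁ → W₂ → Prop} (h : FB R₁ R₂ Z) {x₁ : W₁} {x₂ : W₂} (hx : Z x₁ x₂) :
    IsN R₁ x₁ ↔ IsN R₂ x₂ := by
  rw [← sat_fN (V := fun _ _ => False), ← sat_fN (V := fun _ _ => False)]
  apply h.sat _ _ _ _ _ _ hx
  simp [fN, fZ, fE, dia, Form.and, neg, sig]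

theorem FB.isZ {W₁ : Type u} {W₂ : Type v} {R₁ : W₁ → W₁ → Prop} {R₂ : W₂ → W₂ → Prop}
    {Z : W₁ → W₂ → Prop} (h : FB R₁ R₂ Z) {x₁ : W₁} {x₂ : W₂} (hx : Z x₁ x₂) :
    IsZ R₁ x₁ ↔ IsZ R₂ x₂ := by
  rw [← sat_fZ (V := fun _ _ => False), ← sat_fZ (V := fun _ _ => False)]
  apply h.sat _ _ _ _ _ _ hx
  simp [fZ, fE, dia, neg, sig]

/-- Bisimilarity on a frame. -/
def Bis {W : Type u} (R : W → W → Prop) (x y : W) : Prop := ∃ Z : W → W → Prop, FB R R Z ∧ Z x y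

theorem Bis.symm {W : Type u} {R : W → W → Prop} {x y : W} (h : Bis R x y) : Bis R y x := by
  obtain ⟨Z, ⟨h1, h2⟩, h3⟩ := h
  refine ⟨fun a b => Z b a, ⟨?_, ?_⟩, h3⟩
  · intro a b c hab hac
    exact h2 b a c hab hac
  · intro a b c hab hac
    exact h1 b a c hab hac

theorem Bis.trans {W : Type u} {R : W → W → Prop} {x y z : W} (h : Bis R x y)
    (h' : Bis R y z) : Bis R x z := by
  obtain ⟨Z, ⟨h1, h2⟩, h3⟩ := h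
  obtain ⟨Z', ⟨h1', h2'⟩, h3'⟩ := h'
  refine ⟨fun a b => ∃ c, Z a c ∧ Z' c b, ⟨?_, ?_⟩, y, h3, h3'⟩
  · rintro a b c ⟨d, had, hdb⟩ hac
    obtain ⟨e, he1, he2⟩ := h1 a d c had hac
    obtain ⟨f, hf1, hf2⟩ := h1' d b e hdb he1
    exact ⟨f, hf1, e, he2, hf2⟩
  · rintro a b c ⟨d, had, hdb⟩ hbc
    obtain ⟨e, he1, he2⟩ := h2' d b c hdb hbc
    obtain ⟨f, hf1, hf2⟩ := h2 a d e had he1
    exact ⟨f, hf1, e, hf2, he2⟩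

theorem Bis.forth {W : Type u} {R : W → W → Prop} {x y x' : W} (h : Bis R x y)
    (hx : R x x') : ∃ y', R y y' ∧ Bis R x' y' := by
  obtain ⟨Z, hZ, h3⟩ := h
  obtain ⟨y', h4, h5⟩ := hZ.1 x y x' h3 hx
  exact ⟨y', h4, Z, hZ, h5⟩

theorem Bis.isN {W : Type u} {R : W → W → Prop} {x y : W} (h : Bis R x y) :
    IsN R x ↔ IsN R y := by
  obtain ⟨Z, hZ, h3⟩ := h
  exact hZ.isN h3

theorem bis_of_common {W₁ : Type u} {W₂ : Type v} {R₁ : W₁ → W₁ → Prop} {R₂ : W₂ → W₂ → Prop}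
    {Z : W₁ → W₂ → Prop} (h : FB R₁ R₂ Z) {x : W₁} {y y' : W₂} (hy : Z x y) (hy' : Z x y') :
    Bis R₂ y y' := by
  refine ⟨fun a b => ∃ c, Z c a ∧ Z c b, ⟨?_, ?_⟩, x, hy, hy'⟩
  · rintro a b a' ⟨c, hca, hcb⟩ haa
    obtain ⟨c', h1, h2⟩ := h.2 c a a' hca haa
    obtain ⟨b', h3, h4⟩ := h.1 c b c' hcb h1
    exact ⟨b', h3, c', h2, h4⟩
  · rintro a b b' ⟨c, hca, hcb⟩ hbb
    obtain ⟨c', h1, h2⟩ := h.2 c b b' hcb hbb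
    obtain ⟨a', h3, h4⟩ := h.1 c a c' hca h1
    exact ⟨a', h3, c', h4, h2⟩

/-- An irreflexive root is never bisimilar to a root of the second kind. -/
theorem no_bisim {W₁ : Type u} {W₂ : Type v} {R₁ : W₁ → W₁ → Prop} {R₂ : W₂ → W₂ → Prop}
    (hR₁ : InK R₁) (hR₂ : InK R₂) {Z : W₁ → W₂ → Prop} (hZ : FB R₁ R₂ Z) {r₁ : W₁} {r₂ : W₂}
    (hr : Z r₁ r₂) (h1 : IsR R₁ r₁) (h1' : ¬ R₁ r₁ r₁) (h2 : T2 R₂ r₂) : False := by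
  obtain ⟨x, hx, hP, hQ⟩ := hR₂.k7 r₂ h2 {y | ¬ ∃ y', SC R₂ y y' ∧ Bis R₂ y' y}
  obtain ⟨x₁, hx₁, hxx⟩ := hZ.2 r₁ r₂ x hr hx.1
  have hN₁ : IsN R₁ x₁ := (hZ.isN hxx).2 hx.2
  rcases hR₁.k6 r₁ h1 h1' x₁ ⟨hx₁, hN₁⟩ with h3 | ⟨z₁, h3, h4, h5, _⟩
  · obtain ⟨y, hy, hxy⟩ := hZ.1 x₁ x x₁ hxx h3.1
    have hyN : IsN R₂ y := (hZ.isN hxy).1 hN₁
    have hb : Bis R₂ x y := bis_of_common hZ hxx hxy
    obtain ⟨y', hy', hb'⟩ := hb.forth hy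
    exact hP y ⟨hy, hyN⟩ ⟨y', ⟨hy', hb'.isN.1 hyN⟩, hb'.symm⟩
  · obtain ⟨z, hz, hzz⟩ := hZ.1 x₁ x z₁ hxx h3
    obtain ⟨y, hy, hxy⟩ := hZ.1 z₁ z x₁ hzz h5
    have hyN : IsN R₂ y := (hZ.isN hxy).1 hN₁
    have hb : Bis R₂ x y := bis_of_common hZ hxx hxy
    have hq := hQ y ⟨z, hz, (hZ.isZ hzz).1 h4, hy, hyN⟩
    simp only [Set.mem_ofPred_eq, not_not] at hq
    obtain ⟨y', hy', hb'⟩ := hq
    obtain ⟨y'', hy'', hb''⟩ := hb.symm.forth hy'.1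
    have hN'' : IsN R₂ y'' := hb''.isN.1 hy'.2
    have hb3 : Bis R₂ y y'' := hb'.symm.trans hb''
    obtain ⟨y3, hy3, hb4⟩ := hb3.forth hy'.1
    exact hP y'' ⟨hy'', hN''⟩ ⟨y3, ⟨hy3, hb4.isN.1 hy'.2⟩, hb4.symm.trans hb''⟩

end Pool.Agent.H.MP_e3277b_lc
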