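import Pool.Agent.H.MP_e3277b_lc.SFrames

/-!
Iterated types and the frames that show that there is no interpolant.
-/

namespace Pool.Agent.H.MP_e3277b_lc

open Form

/-- Types of level `n`. -/
def Ty : ℕ → Type
  | 0 => PUnit
  | n + 1 => Set (Ty n) × Set (Ty n)

/-- Restriction of types. -/
def pr : (n : ℕ) → Ty (n + 1) → Ty n
  | 0 => fun _ => PUnit.unit
  | n + 1 => fun p => (pr n '' p.1, pr n '' p.2)

/-- The types that are used. -/
def Re : (n : ℕ) → Set (Ty n)
  | 0 => Set.univ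
  | n + 1 => {p : Set (Ty n) × Set (Ty n) | p.1 ∪ p.2 = Re n}

theorem re_nonempty : ∀ n, (Re n).Nonempty
  | 0 => ⟨PUnit.unit, trivial⟩
  | n + 1 => ⟨(Re n, Re n), Set.union_self _⟩

theorem pr_image : ∀ n, pr n '' Re (n + 1) = Re n
  | 0 => by
    ext t
    constructor
    · intro _
      trivial
    · intro _
      obtain ⟨s, hs⟩ := re_nonempty 1
      exact ⟨s, hs, rfl⟩
  | n + 1 => by
    have ih := pr_image n
    ext t
    constructor
    · rintro ⟨s, hs, rfl⟩
      have hs' : s.1 ∪ s.2 = Re (n + 1) := hs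
      change pr n '' s.1 ∪ pr n '' s.2 = Re n
      rw [← Set.image_union, hs', ih]
    · intro ht
      have ht' : t.1 ∪ t.2 = Re n := ht
      refine ⟨({s | s ∈ Re (n + 1) ∧ pr n s ∈ t.1}, {s | s ∈ Re (n + 1) ∧ pr n s ∈ t.2}), ?_, ?_⟩
      · change {s | s ∈ Re (n + 1) ∧ pr n s ∈ t.1} ∪ {s | s ∈ Re (n + 1) ∧ pr n s ∈ t.2} = _
        ext s
        constructor
        · rintro (h | h)
          · exact h.1
          · exact h.1
        · intro hs
          have h1 : pr n s ∈ t.1 ∪ t.2 := by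
            rw [ht', ← ih]
            exact ⟨s, hs, rfl⟩
          rcases h1 with h1 | h1
          · exact Or.inl ⟨hs, h1⟩
          · exact Or.inr ⟨hs, h1⟩
      · have key : ∀ a : Set (Ty n), a ⊆ Re n →
            pr n '' {s | s ∈ Re (n + 1) ∧ pr n s ∈ a} = a := by
          intro a ha
          ext τ
          constructor
          · rintro ⟨s, hs, rfl⟩
            exact hs.2
          · intro hτ
            have h1 := ha hτ
            rw [← ih] at h1
            obtain ⟨s, hs, rfl⟩ := h1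
            exact ⟨s, ⟨hs, hτ⟩, rfl⟩
        apply Prod.ext
        · exact key t.1 (ht' ▸ Set.subset_union_left)
        · exact key t.2 (ht' ▸ Set.subset_union_right)

/-- Modal depth. -/
def dep : Form → ℕ
  | var _ => 0
  | bot => 0
  | imp φ ψ => max (dep φ) (dep ψ)
  | box φ => dep φ + 1

/-- Truth at the dead end. -/
def evE : Form → Prop
  | var _ => False
  | bot => False
  | imp φ ψ => evE φ → evE ψ
  | box _ => True

mutual

/-- Truth at an `N`-point of type `τ`. -/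
def evN : Form → (n : ℕ) → Ty n → Prop
  | var _, _, _ => False
  | bot, _, _ => False
  | imp φ ψ, n, τ => evN φ n τ → evN ψ n τ
  | box _, 0, _ => True
  | box φ, n + 1, τ => (∀ t ∈ τ.1, evN φ n t) ∧ evZ φ n τ.2

/-- Truth at a `Z`-point with successors of types in `b`. -/
def evZ : Form → (n : ℕ) → Set (Ty n) → Prop
  | var _, _, _ => False
  | bot, _, _ => False
  | imp φ ψ, n, b => evZ φ n b → evZ ψ n b
  | box φ, n, b => (∀ t ∈ b, evN φ n t) ∧ evE φ

end

theorem ev_pr (φ : Form) : ∀ n, dep φ ≤ n →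
    (∀ τ : Ty (n + 1), evN φ (n + 1) τ ↔ evN φ n (pr n τ)) ∧
    (∀ b : Set (Ty (n + 1)), evZ φ (n + 1) b ↔ evZ φ n (pr n '' b)) := by
  induction φ with
  | var k => intro n _; simp [evN, evZ]
  | bot => intro n _; simp [evN, evZ]
  | imp φ ψ h1 h2 =>
    intro n hn
    simp only [dep, max_le_iff] at hn
    obtain ⟨a1, a2⟩ := h1 n hn.1
    obtain ⟨b1, b2⟩ := h2 n hn.2
    constructor
    · intro τ
      simp only [evN, a1, b1]
    · intro b
      simp only [evZ, a2, b2]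
  | box φ ih =>
    intro n hn
    simp only [dep] at hn
    constructor
    · intro τ
      cases n with
      | zero => omega
      | succ m =>
        obtain ⟨a1, a2⟩ := ih m (by omega)
        simp only [evN, pr, a2, Set.forall_mem_image, a1]
    · intro b
      obtain ⟨a1, a2⟩ := ih n (by omega)
      simp only [evZ, Set.forall_mem_image, a1]

/-! ### The frames -/

/-- The nodes that are successors of the first root. -/
abbrev YY (N : ℕ) : Type := {τ : Ty (N + 1) // τ ∈ Re (N + 1)} × Bool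

/-- All nodes. -/
abbrev KK (N : ℕ) : Type := YY N ⊕ Set (YY N)

/-- The set of node successors of a node. -/
def cc (N : ℕ) : KK N → Set (YY N)
  | Sum.inl u => {y | pr N y.1.1 ∈ u.1.1.1 ∧ (pr N y.1.1 ∉ u.1.1.2 ∨ y.2 = true)}
  | Sum.inr P => P

/-- The points. -/
inductive Pt (N : ℕ) : Type where
  | e : Pt N
  | n (k : KK N) : Pt N
  | z (k : KK N) : Pt N
  | r1 : Pt N
  | s : Pt N
  | r2 : Pt N

/-- The accessibility relation. -/
inductive Acc (N : ℕ) : Pt N → Pt N → Prop where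
  | nn (k : KK N) (y : YY N) : y ∈ cc N k → Acc N (Pt.n k) (Pt.n (Sum.inl y))
  | nz (k : KK N) : Acc N (Pt.n k) (Pt.z k)
  | zn (k : KK N) (y : YY N) : y ∉ cc N k → Acc N (Pt.z k) (Pt.n (Sum.inl y))
  | ze (k : KK N) : Acc N (Pt.z k) Pt.e
  | r1n (y : YY N) : Acc N Pt.r1 (Pt.n (Sum.inl y))
  | r1s : Acc N Pt.r1 Pt.s
  | sn (y : YY N) : Acc N Pt.s (Pt.n (Sum.inl y))
  | ss : Acc N Pt.s Pt.s
  | r2n (P : Set (YY N)) : Acc N Pt.r2 (Pt.n (Sum.inr P))
  | r2r1 : Acc N Pt.r2 Pt.r1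
  | r2r2 : Acc N Pt.r2 Pt.r2

variable {N : ℕ}

theorem isE_iff (p : Pt N) : IsE (Acc N) p ↔ p = Pt.e := by
  constructor
  · intro h
    cases p with
    | e => rfl
    | n k => exact absurd (Acc.nz k) (h _)
    | z k => exact absurd (Acc.ze k) (h _)
    | r1 => exact absurd Acc.r1s (h _)
    | s => exact absurd Acc.ss (h _)
    | r2 => exact absurd Acc.r2r2 (h _)
  · rintro rfl q hq
    cases hq

theorem isZ_iff (p : Pt N) : IsZ (Acc N) p ↔ ∃ k, p = Pt.z k := by
  simp only [IsZ, isE_iff]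
  constructor
  · rintro ⟨q, hq, rfl⟩
    cases hq with
    | ze k => exact ⟨k, rfl⟩
  · rintro ⟨k, rfl⟩
    exact ⟨_, Acc.ze k, rfl⟩

theorem isN_iff (p : Pt N) : IsN (Acc N) p ↔ ∃ k, p = Pt.n k := by
  simp only [IsN, isZ_iff]
  constructor
  · rintro ⟨_, q, hq, k, rfl⟩
    cases hq with
    | nz k => exact ⟨k, rfl⟩
  · rintro ⟨k, rfl⟩
    exact ⟨(by rintro ⟨k', h⟩; cases h), _, Acc.nz k, k, rfl⟩

theorem isR_iff (p : Pt N) : IsR (Acc N) p ↔ p = Pt.r1 ∨ p = Pt.s ∨ p = Pt.r2 := by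
  simp only [IsR, isZ_iff]
  constructor
  · rintro ⟨h1, h2, q, hq, t, ht, k, rfl⟩
    cases p with
    | e => cases hq
    | n k => exact absurd ⟨_, Acc.nz k, k, rfl⟩ h2
    | z k => exact absurd ⟨k, rfl⟩ h1
    | r1 => exact Or.inl rfl
    | s => exact Or.inr (Or.inl rfl)
    | r2 => exact Or.inr (Or.inr rfl)
  · obtain ⟨τ, hτ⟩ := re_nonempty (N + 1)
    rintro (rfl | rfl | rfl)
    · refine ⟨(by rintro ⟨k', h⟩; cases h), ?_, _, Acc.r1n (⟨τ, hτ⟩, true), _, Acc.nz _, _, rfl⟩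
      rintro ⟨q, hq, k, rfl⟩
      cases hq
    · refine ⟨(by rintro ⟨k', h⟩; cases h), ?_, _, Acc.sn (⟨τ, hτ⟩, true), _, Acc.nz _, _, rfl⟩
      rintro ⟨q, hq, k, rfl⟩
      cases hq
    · refine ⟨(by rintro ⟨k', h⟩; cases h), ?_, _, Acc.r2n ∅, _, Acc.nz _, _, rfl⟩
      rintro ⟨q, hq, k, rfl⟩
      cases hq

theorem sc_iff (k : KK N) (p : Pt N) :
    SC (Acc N) (Pt.n k) p ↔ ∃ y ∈ cc N k, p = Pt.n (Sum.inl y) := by
  simp only [SC, isN_iff]
  constructor
  · rintro ⟨h, k', rfl⟩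
    cases h with
    | nn _ y hy => exact ⟨y, hy, rfl⟩
  · rintro ⟨y, hy, rfl⟩
    exact ⟨Acc.nn k y hy, _, rfl⟩

theorem sd_iff (k : KK N) (p : Pt N) :
    SD (Acc N) (Pt.n k) p ↔ ∃ y, y ∉ cc N k ∧ p = Pt.n (Sum.inl y) := by
  simp only [SD, isN_iff, isZ_iff]
  constructor
  · rintro ⟨z, h, ⟨k', rfl⟩, h2, k'', rfl⟩
    cases h with
    | nz _ =>
      cases h2 with
      | zn _ y hy => exact ⟨y, hy, rfl⟩
  · rintro ⟨y, hy, rfl⟩
    exact ⟨_, Acc.nz k, ⟨k, rfl⟩, Acc.zn k y hy, _, rfl⟩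

theorem su_iff (k : KK N) (p : Pt N) :
    SU (Acc N) (Pt.n k) p ↔ ∃ y : YY N, p = Pt.n (Sum.inl y) := by
  simp only [SU, sc_iff, sd_iff]
  constructor
  · rintro (⟨y, _, h⟩ | ⟨y, _, h⟩)
    · exact ⟨y, h⟩
    · exact ⟨y, h⟩
  · rintro ⟨y, h⟩
    by_cases hy : y ∈ cc N k
    · exact Or.inl ⟨y, hy, h⟩
    · exact Or.inr ⟨y, hy, h⟩

theorem t2_iff (p : Pt N) : T2 (Acc N) p ↔ p = Pt.r2 := by
  simp only [T2, isR_iff]
  constructor
  · rintro ⟨h, q, hq, h1, h2⟩
    rcases h with rfl | rfl | rfl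
    · cases hq with
      | r1n y => simp at h1
      | r1s => exact absurd Acc.ss h2
    · cases hq with
      | sn y => simp at h1
      | ss => exact absurd Acc.ss h2
    · rfl
  · rintro rfl
    refine ⟨by simp, _, Acc.r2r1, by simp, ?_⟩
    intro h
    cases h

theorem inK_acc : InK (Acc N) where
  k1 := by
    intro x y hx hxy
    rw [isN_iff] at hx
    obtain ⟨k, rfl⟩ := hx
    simp only [isN_iff, isZ_iff]
    cases hxy with
    | nn _ y hy => exact Or.inl ⟨_, rfl⟩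
    | nz _ => exact Or.inr ⟨_, rfl⟩
  k2 := by
    intro x y hx hxy
    rw [isZ_iff] at hx
    obtain ⟨k, rfl⟩ := hx
    simp only [isN_iff, isE_iff]
    cases hxy with
    | zn _ y hy => exact Or.inl ⟨_, rfl⟩
    | ze _ => exact Or.inr rfl
  k3 := by
    intro x z z' hx h1 h2 h3 h4
    rw [isN_iff] at hx
    obtain ⟨k, rfl⟩ := hx
    rw [isZ_iff] at h2 h4
    obtain ⟨k2, rfl⟩ := h2
    obtain ⟨k4, rfl⟩ := h4
    cases h1
    cases h3
    rfl
  k4 := by
    intro x z z' hx h1 h2 h3 h4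
    rw [isE_iff] at h2 h4
    rw [h2, h4]
  k5 := by
    intro w hw x x' hx hx' y hy
    obtain ⟨_, hx⟩ := hx
    obtain ⟨_, hx'⟩ := hx'
    rw [isN_iff] at hx hx'
    obtain ⟨k, rfl⟩ := hx
    obtain ⟨k', rfl⟩ := hx'
    rw [su_iff] at hy ⊢
    exact hy
  k6 := by
    intro w hw hn x hx
    rw [isR_iff] at hw
    rcases hw with rfl | rfl | rfl
    · obtain ⟨h1, h2⟩ := hx
      rw [isN_iff] at h2
      obtain ⟨k, rfl⟩ := h2
      cases h1 with
      | r1n y =>
        rw [su_iff]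
        exact ⟨y, rfl⟩
    · exact absurd Acc.ss hn
    · exact absurd Acc.r2r2 hn
  k7 := by
    intro w hw P
    rw [t2_iff] at hw
    subst hw
    refine ⟨Pt.n (Sum.inr {y | Pt.n (Sum.inl y) ∈ P}), ⟨Acc.r2n _, ?_⟩, ?_, ?_⟩
    · rw [isN_iff]
      exact ⟨_, rfl⟩
    · intro q hq
      rw [sc_iff] at hq
      obtain ⟨y, hy, rfl⟩ := hq
      exact hy
    · intro q hq
      rw [sd_iff] at hq
      obtain ⟨y, hy, rfl⟩ := hq
      exact hy

/-- The type of a node. -/
def ty (k : KK N) : Ty (N + 1) :=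
  ((fun y : YY N => pr N y.1.1) '' cc N k, (fun y : YY N => pr N y.1.1) '' (cc N k)ᶜ)

theorem pr_mem (y : YY N) : pr N y.1.1 ∈ Re N := by
  rw [← pr_image N]
  exact ⟨_, y.1.2, rfl⟩

theorem exists_pr {τ : Ty N} (h : τ ∈ Re N) (b : Bool) : ∃ y : YY N, pr N y.1.1 = τ ∧ y.2 = b := by
  rw [← pr_image N] at h
  obtain ⟨t, ht, rfl⟩ := h
  exact ⟨(⟨t, ht⟩, b), rfl, rfl⟩

theorem ty_mem (k : KK N) : ty k ∈ Re (N + 1) := by
  change (fun y : YY N => pr N y.1.1) '' cc N k ∪ (fun y : YY N => pr N y.1.1) '' (cc N k)ᶜ = Re N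
  rw [← Set.image_union, Set.union_compl_self, Set.image_univ]
  ext τ
  constructor
  · rintro ⟨y, rfl⟩
    exact pr_mem y
  · intro h
    obtain ⟨y, hy, _⟩ := exists_pr h true
    exact ⟨y, hy⟩

theorem ty_inl (u : YY N) : ty (Sum.inl u : KK N) = u.1.1 := by
  have hu : u.1.1.1 ∪ u.1.1.2 = Re N := u.1.2
  apply Prod.ext
  · change (fun y : YY N => pr N y.1.1) '' cc N (Sum.inl u) = u.1.1.1
    ext τ
    constructor
    · rintro ⟨y, hy, rfl⟩
      exact hy.1
    · intro h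
      obtain ⟨y, hy, hb⟩ := exists_pr (hu ▸ Or.inl h : τ ∈ Re N) true
      refine ⟨y, ⟨?_, Or.inr hb⟩, hy⟩
      rw [hy]
      exact h
  · change (fun y : YY N => pr N y.1.1) '' (cc N (Sum.inl u))ᶜ = u.1.1.2
    ext τ
    constructor
    · rintro ⟨y, hy, rfl⟩
      by_contra h
      have h1 : pr N y.1.1 ∈ u.1.1.1 ∪ u.1.1.2 := hu ▸ pr_mem y
      rcases h1 with h1 | h1
      · exact hy ⟨h1, Or.inl h⟩
      · exact h h1
    · intro h
      obtain ⟨y, hy, hb⟩ := exists_pr (hu ▸ Or.inr h : τ ∈ Re N) false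
      refine ⟨y, ?_, hy⟩
      rintro ⟨_, h2 | h2⟩
      · apply h2
        rw [hy]
        exact h
      · rw [hb] at h2
        cases h2

theorem sat_types (V : ℕ → Pt N → Prop) (φ : Form) (hφ : φ.sig ⊆ ∅) (hd : dep φ ≤ N + 1) :
    (∀ k, Sat (Acc N) V (Pt.n k) φ ↔ evN φ (N + 1) (ty k)) ∧
    (∀ k, Sat (Acc N) V (Pt.z k) φ ↔ evZ φ N (ty k).2) ∧
    (Sat (Acc N) V Pt.e φ ↔ evE φ) := by
  induction φ with
  | var n => exact absurd (hφ (Set.mem_singleton n)) (Set.notMem_empty n)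
  | bot => simp [evN, evZ, evE]
  | imp φ ψ h1 h2 =>
    simp only [sig, Set.union_subset_iff] at hφ
    simp only [dep, max_le_iff] at hd
    obtain ⟨a1, a2, a3⟩ := h1 hφ.1 hd.1
    obtain ⟨b1, b2, b3⟩ := h2 hφ.2 hd.2
    refine ⟨?_, ?_, ?_⟩
    · intro k
      simp only [sat_imp, a1, b1, evN]
    · intro k
      simp only [sat_imp, a2, b2, evZ]
    · simp only [sat_imp, a3, b3, evE]
  | box φ ih =>
    simp only [dep] at hd
    have hd' : dep φ ≤ N := by omega
    obtain ⟨a1, a2, a3⟩ := ih hφ (by omega)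
    have hN : ∀ y : YY N, Sat (Acc N) V (Pt.n (Sum.inl y)) φ ↔ evN φ N (pr N y.1.1) := by
      intro y
      rw [a1, ty_inl, (ev_pr φ N hd').1]
    refine ⟨?_, ?_, ?_⟩
    · intro k
      simp only [sat_box, evN, ty, Set.forall_mem_image]
      constructor
      · intro h
        refine ⟨?_, ?_⟩
        · intro y hy
          exact (hN y).1 (h _ (Acc.nn k y hy))
        · exact (a2 k).1 (h _ (Acc.nz k))
      · rintro ⟨h1, h2⟩ q hq
        cases hq with
        | nn _ y hy => exact (hN y).2 (h1 hy)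
        | nz _ => exact (a2 k).2 h2
    · intro k
      simp only [sat_box, evZ, ty, Set.forall_mem_image]
      constructor
      · intro h
        refine ⟨?_, ?_⟩
        · intro y hy
          exact (hN y).1 (h _ (Acc.zn k y hy))
        · exact a3.1 (h _ (Acc.ze k))
      · rintro ⟨h1, h2⟩ q hq
        cases hq with
        | zn _ y hy => exact (hN y).2 (h1 hy)
        | ze _ => exact a3.2 h2
    · simp only [sat_box, evE, iff_true]
      intro q hq
      cases hq

theorem sat_roots (V : ℕ → Pt N → Prop) (φ : Form) (hφ : φ.sig ⊆ ∅) (hd : dep φ ≤ N + 2) :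
    (Sat (Acc N) V Pt.r1 φ ↔ Sat (Acc N) V Pt.s φ) ∧
    (Sat (Acc N) V Pt.r2 φ ↔ Sat (Acc N) V Pt.s φ) := by
  induction φ with
  | var n => exact absurd (hφ (Set.mem_singleton n)) (Set.notMem_empty n)
  | bot => simp
  | imp φ ψ h1 h2 =>
    simp only [sig, Set.union_subset_iff] at hφ
    simp only [dep, max_le_iff] at hd
    obtain ⟨a1, a2⟩ := h1 hφ.1 hd.1
    obtain ⟨b1, b2⟩ := h2 hφ.2 hd.2
    simp only [sat_imp, a1, a2, b1, b2, and_self]
  | box φ ih =>
    simp only [dep] at hd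
    obtain ⟨a1, a2⟩ := ih hφ (by omega)
    obtain ⟨b1, _, _⟩ := sat_types V φ hφ (by omega)
    constructor
    · simp only [sat_box]
      constructor
      · intro h q hq
        cases hq with
        | sn y => exact h _ (Acc.r1n y)
        | ss => exact h _ Acc.r1s
      · intro h q hq
        cases hq with
        | r1n y => exact h _ (Acc.sn y)
        | r1s => exact h _ Acc.ss
    · simp only [sat_box]
      constructor
      · intro h q hq
        cases hq with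
        | sn y =>
          rw [b1]
          have h1 := h _ (Acc.r2n (cc N (Sum.inl y)))
          rw [b1] at h1
          exact h1
        | ss => exact a2.1 (h _ Acc.r2r2)
      · intro h q hq
        cases hq with
        | r2n P =>
          rw [b1]
          have h1 := h _ (Acc.sn (⟨ty (Sum.inr P), ty_mem _⟩, true))
          rw [b1, ty_inl] at h1
          exact h1
        | r2r1 => exact a1.2 (h _ Acc.ss)
        | r2r2 => exact a2.2 (h _ Acc.ss)

/-- The first formula. -/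
def phi1 : Form := fI 0

/-- The second formula. -/
def phi2 : Form := neg (fT 1)

theorem sig_phi : phi1.sig ∩ phi2.sig = ∅ := by
  simp [phi1, phi2, fT, fI, fR, fZ, fE, dia, Form.and, neg, sig]

theorem no_interpolant : ¬ ∃ ι, IsInterpolant LogicK phi1 phi2 ι := by
  rintro ⟨ι, h1, h2, h3⟩
  rw [sig_phi] at h1
  have e1 := h2 _ (Acc (dep ι)) inK_acc (fun _ p => p = Pt.r1) Pt.r1
  have e2 := h3 _ (Acc (dep ι)) inK_acc (fun _ p => p = Pt.r1) Pt.r2
  obtain ⟨c1, c2⟩ := sat_roots (N := dep ι) (fun _ p => p = Pt.r1) ι h1 (by omega)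
  have hnr : ∀ q : Pt (dep ι), Acc (dep ι) Pt.r1 q → ¬ q = Pt.r1 := by
    rintro q hq rfl
    cases hq
  have e3 : Sat (Acc (dep ι)) (fun _ p => p = Pt.r1) Pt.r1 ι := by
    apply e1
    rw [phi1, sat_fI, isR_iff]
    exact ⟨Or.inl rfl, rfl, hnr⟩
  have e4 := e2 (c2.2 (c1.1 e3))
  rw [phi2, sat_neg, sat_fT] at e4
  apply e4
  exact ⟨by simp [isR_iff], Pt.r1, Acc.r2r1, by simp [isR_iff], rfl, hnr⟩

end Pool.Agent.H.MP_e3277b_lc
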