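import Pool.Agent.H.MP_e3277b_lc.SFrames

/-!
Ultraproducts of models.
-/

namespace Pool.Agent.H.MP_e3277b_lc

open Form Filter

/-- The conditions that hold in ultraproducts; `B` is the set of internal subsets. -/
structure Pre {W : Type} (R : W → W → Prop) (V : ℕ → W → Prop) (B : Set (Set W)) : Prop
    extends InK6 R where
  t2r : ∀ w, T2 R w → R w w
  univ : Set.univ ∈ B
  inter : ∀ s ∈ B, ∀ t ∈ B, s ∩ t ∈ B
  ne : ∀ a, {b | b ≠ a} ∈ B
  sat : ∀ φ, {x | Sat R V x φ} ∈ B
  k7 : ∀ w, T2 R w → ∀ P ∈ B, ∃ x, SC R w x ∧ (∀ y, SC R x y → y ∈ P) ∧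
    (∀ y, SD R x y → y ∉ P)

section

variable {I : Type} (U : Ultrafilter I) {W : I → Type}

/-- Almost everywhere equality. -/
def aeq : Setoid (∀ i, W i) where
  r f g := ∀ᶠ i in (U : Filter I), f i = g i
  iseqv :=
    { refl := fun _ => Eventually.of_forall fun _ => rfl
      symm := fun h => h.mono fun _ h => h.symm
      trans := fun h h' => h.mp (h'.mono fun _ h1 h2 => h2.trans h1) }

/-- The ultraproduct. -/
def UP (W : I → Type) : Type := Quotient (aeq U (W := W))

variable {U}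

/-- Representatives. -/
noncomputable def UP.o (a : UP U W) : ∀ i, W i := Quotient.out a

/-- The class of a function. -/
def UP.mk (f : ∀ i, W i) : UP U W := Quotient.mk (aeq U) f

theorem UP.o_mk (f : ∀ i, W i) : ∀ᶠ i in (U : Filter I), (UP.mk (U := U) f).o i = f i :=
  Quotient.mk_out (s := aeq U) f

theorem UP.ext' {a b : UP U W} : a = b ↔ ∀ᶠ i in (U : Filter I), a.o i = b.o i := by
  constructor
  · rintro rfl
    exact Eventually.of_forall fun _ => rfl
  · intro h
    have : Quotient.mk (aeq U) a.o = Quotient.mk (aeq U) b.o := Quotient.sound (s := aeq U) h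
    exact (Quotient.out_eq (s := aeq U) a).symm.trans (this.trans (Quotient.out_eq (s := aeq U) b))

theorem UP.exists_of_eventually (a : UP U W) {p : ∀ i, W i → Prop}
    (h : ∀ᶠ i in (U : Filter I), ∃ y, p i y) :
    ∃ b : UP U W, ∀ᶠ i in (U : Filter I), p i (b.o i) := by
  classical
  refine ⟨UP.mk fun i => if h : ∃ y, p i y then h.choose else a.o i, ?_⟩
  filter_upwards [h, UP.o_mk (U := U) fun i => if h : ∃ y, p i y then h.choose else a.o i]
    with i h1 h2
  rw [h2, dif_pos h1]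
  exact h1.choose_spec

variable (R : ∀ i, W i → W i → Prop) (V : ∀ i, ℕ → W i → Prop)

/-- The relation of the ultraproduct. -/
def RS (a b : UP U W) : Prop := ∀ᶠ i in (U : Filter I), R i (a.o i) (b.o i)

/-- The valuation of the ultraproduct. -/
def VS (n : ℕ) (a : UP U W) : Prop := ∀ᶠ i in (U : Filter I), V i n (a.o i)

theorem los (φ : Form) : ∀ a : UP U W,
    Sat (RS R) (VS V) a φ ↔ ∀ᶠ i in (U : Filter I), Sat (R i) (V i) (a.o i) φ := by
  induction φ with
  | var n => intro a; rfl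
  | bot => intro a; simp [U.neBot.ne]
  | imp φ ψ h1 h2 =>
    intro a
    simp only [sat_imp, h1, h2, Ultrafilter.eventually_imp]
  | box φ ih =>
    intro a
    constructor
    · intro h
      by_contra hn
      rw [← Ultrafilter.eventually_not] at hn
      obtain ⟨b, hb⟩ := UP.exists_of_eventually a
        (p := fun i y => R i (a.o i) y ∧ ¬ Sat (R i) (V i) y φ) (hn.mono (by
          intro i hi
          simp only [sat_box, not_forall] at hi
          obtain ⟨y, hy, hy'⟩ := hi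
          exact ⟨y, hy, hy'⟩))
      have h1 := (ih b).1 (h b (hb.mono fun i hi => hi.1))
      obtain ⟨i, hi1, hi2⟩ := (h1.and hb).exists
      exact hi2.2 hi1
    · intro h b hb
      rw [ih]
      filter_upwards [h, hb] with i h1 h2
      exact h1 _ h2

variable {R V}

theorem isE_RS {a : UP U W} : IsE (RS R) a ↔ ∀ᶠ i in (U : Filter I), IsE (R i) (a.o i) := by
  have h := los (U := U) R (fun _ _ _ => False) fE a
  simpa only [sat_fE] using h

theorem isZ_RS {a : UP U W} : IsZ (RS R) a ↔ ∀ᶠ i in (U : Filter I), IsZ (R i) (a.o i) := by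
  have h := los (U := U) R (fun _ _ _ => False) fZ a
  simpa only [sat_fZ] using h

theorem isN_RS {a : UP U W} : IsN (RS R) a ↔ ∀ᶠ i in (U : Filter I), IsN (R i) (a.o i) := by
  have h := los (U := U) R (fun _ _ _ => False) fN a
  simpa only [sat_fN] using h

theorem isR_RS {a : UP U W} : IsR (RS R) a ↔ ∀ᶠ i in (U : Filter I), IsR (R i) (a.o i) := by
  have h := los (U := U) R (fun _ _ _ => False) fR a
  simpa only [sat_fR] using h

theorem sc_RS {a b : UP U W} : SC (RS R) a b ↔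
    ∀ᶠ i in (U : Filter I), SC (R i) (a.o i) (b.o i) := by
  simp only [SC, isN_RS, eventually_and]
  rfl

theorem sd_RS {a b : UP U W} : SD (RS R) a b ↔
    ∀ᶠ i in (U : Filter I), SD (R i) (a.o i) (b.o i) := by
  constructor
  · rintro ⟨z, h1, h2, h3, h4⟩
    rw [isZ_RS] at h2
    rw [isN_RS] at h4
    filter_upwards [h1, h2, h3, h4] with i h1 h2 h3 h4
    exact ⟨_, h1, h2, h3, h4⟩
  · intro h
    obtain ⟨z, hz⟩ := UP.exists_of_eventually a h
    refine ⟨z, hz.mono fun i hi => hi.1, isZ_RS.2 (hz.mono fun i hi => hi.2.1),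
      hz.mono fun i hi => hi.2.2.1, isN_RS.2 (hz.mono fun i hi => hi.2.2.2)⟩

theorem su_RS {a b : UP U W} : SU (RS R) a b ↔
    ∀ᶠ i in (U : Filter I), SU (R i) (a.o i) (b.o i) := by
  simp only [SU, sc_RS, sd_RS, Ultrafilter.eventually_or]

theorem t2_RS {a : UP U W} (h : T2 (RS R) a) :
    ∀ᶠ i in (U : Filter I), T2 (R i) (a.o i) := by
  obtain ⟨h1, s, h2, h3, h4⟩ := h
  rw [isR_RS] at h1 h3
  have h4' : ∀ᶠ i in (U : Filter I), ¬ R i (s.o i) (s.o i) := Ultrafilter.eventually_not.2 h4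
  filter_upwards [h1, h2, h3, h4'] with i h1 h2 h3 h4
  exact ⟨h1, _, h2, h3, h4⟩

/-- Internal sets. -/
def Int : Set (Set (UP U W)) :=
  {S | ∃ P : ∀ i, Set (W i), ∀ a, a ∈ S ↔ ∀ᶠ i in (U : Filter I), a.o i ∈ P i}

theorem pre_RS (hR : ∀ i, InK (R i)) : Pre (RS (U := U) R) (VS V) Int where
  k1 := by
    intro x y hx hy
    rw [isN_RS] at hx ⊢
    rw [isZ_RS]
    rw [← Ultrafilter.eventually_or]
    filter_upwards [hx, hy] with i h1 h2
    exact (hR i).k1 _ _ h1 h2
  k2 := by
    intro x y hx hy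
    rw [isZ_RS] at hx
    rw [isN_RS, isE_RS]
    rw [← Ultrafilter.eventually_or]
    filter_upwards [hx, hy] with i h1 h2
    exact (hR i).k2 _ _ h1 h2
  k3 := by
    intro x z z' hx h1 h2 h3 h4
    rw [isN_RS] at hx
    rw [isZ_RS] at h2 h4
    rw [UP.ext']
    filter_upwards [hx, h1, h2, h3, h4] with i hx h1 h2 h3 h4
    exact (hR i).k3 _ _ _ hx h1 h2 h3 h4
  k4 := by
    intro x z z' hx h1 h2 h3 h4
    rw [isZ_RS] at hx
    rw [isE_RS] at h2 h4
    rw [UP.ext']
    filter_upwards [hx, h1, h2, h3, h4] with i hx h1 h2 h3 h4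
    exact (hR i).k4 _ _ _ hx h1 h2 h3 h4
  k5 := by
    intro w hw x x' hx hx' y hy
    rw [sc_RS] at hx hx'
    rw [su_RS] at hy ⊢
    filter_upwards [t2_RS hw, hx, hx', hy] with i h1 h2 h3 h4
    exact (hR i).k5 _ h1 _ _ h2 h3 _ h4
  k6 := by
    intro w hw hn x hx
    rw [isR_RS] at hw
    rw [sc_RS] at hx
    rw [su_RS]
    have hn' : ∀ᶠ i in (U : Filter I), ¬ R i (w.o i) (w.o i) := Ultrafilter.eventually_not.2 hn
    filter_upwards [hw, hn', hx] with i h1 h2 h3
    exact (hR i).k6 _ h1 h2 _ h3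
  t2r := by
    intro w hw
    exact (t2_RS hw).mono fun i hi => refl_of_t2 (hR i) hi
  univ := ⟨fun _ => Set.univ, fun a => by simp⟩
  inter := by
    rintro s ⟨P, hP⟩ t ⟨Q, hQ⟩
    refine ⟨fun i => P i ∩ Q i, fun a => ?_⟩
    simp only [Set.mem_inter_iff, hP, hQ, eventually_and]
  ne := by
    intro a
    refine ⟨fun i => {y | y ≠ a.o i}, fun b => ?_⟩
    change b ≠ a ↔ ∀ᶠ i in (U : Filter I), ¬ b.o i = a.o i
    rw [Ultrafilter.eventually_not, ← UP.ext']
  sat := by
    intro φ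
    exact ⟨fun i => {y | Sat (R i) (V i) y φ}, fun a => los R V φ a⟩
  k7 := by
    rintro w hw S ⟨P, hP⟩
    obtain ⟨x, hx⟩ := UP.exists_of_eventually w
      (p := fun i x => SC (R i) (w.o i) x ∧ (∀ y, SC (R i) x y → y ∈ P i) ∧
        (∀ y, SD (R i) x y → y ∉ P i))
      ((t2_RS hw).mono fun i hi => (hR i).k7 _ hi (P i))
    refine ⟨x, sc_RS.2 (hx.mono fun i hi => hi.1), ?_, ?_⟩
    · intro y hy
      rw [sc_RS] at hy
      rw [hP]
      filter_upwards [hx, hy] with i h1 h2
      exact h1.2.1 _ h2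
    · intro y hy hyS
      rw [sd_RS] at hy
      rw [hP] at hyS
      obtain ⟨i, h1, h2, h3⟩ := (hx.and (hy.and hyS)).exists
      exact h1.2.2 _ h2 h3

end

/-- Every consistent set is satisfied in a structure with the properties `Pre`. -/
theorem exists_pre (Γ : Set Form) (hΓ : Consistent LogicK Γ) :
    ∃ (W : Type) (R : W → W → Prop) (V : ℕ → W → Prop) (B : Set (Set W)) (x : W),
      Pre R V B ∧ ∀ ψ ∈ Γ, Sat R V x ψ := by
  classical
  have h1 : ∀ s : Finset Form, ∃ (W : Type) (R : W → W → Prop) (V : ℕ → W → Prop) (x : W),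
      InK R ∧ ∀ ψ ∈ s, ψ ∈ Γ → Sat R V x ψ := by
    intro s
    have h2 := hΓ (s.toList.filter fun ψ => decide (ψ ∈ Γ)) (by
      intro ψ hψ
      simpa using (List.mem_filter.1 hψ).2)
    simp only [LogicK, Set.mem_ofPred_eq, not_forall, sat_neg, not_not, exists_prop] at h2
    obtain ⟨W, R, hR, V, x, hx⟩ := h2
    refine ⟨W, R, V, x, hR, ?_⟩
    intro ψ h3 h4
    rw [sat_conj] at hx
    exact hx ψ (List.mem_filter.2 ⟨by simpa using h3, by simpa using h4⟩)
  choose W R V x hR hx using h1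
  have hne : (atTop : Filter (Finset Form)).NeBot := inferInstance
  refine ⟨UP (Ultrafilter.of atTop) W, RS R, VS V, Int, UP.mk x, pre_RS hR, ?_⟩
  intro ψ hψ
  rw [los]
  have h2 : ∀ᶠ s in ((Ultrafilter.of (atTop : Filter (Finset Form))) : Filter (Finset Form)),
      ψ ∈ s := by
    apply Ultrafilter.of_le
    filter_upwards [eventually_ge_atTop {ψ}] with s hs
    exact hs (Finset.mem_singleton_self ψ)
  filter_upwards [h2, UP.o_mk (U := Ultrafilter.of (atTop : Filter (Finset Form))) x]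
    with s h3 h4
  rw [h4]
  exact hx s ψ h3 hψ

end Pool.Agent.H.MP_e3277b_lc
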